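import Pool.Agent.Helper28.TL.Defs
import Pool.Agent.Helper28.TL.M_Half

/-!
# Project TH: newforms of level `q M` which are invariant under the Atkin-Lehner involution at `q`

`ALPlus q M f`: `f | W_q = f`, written out for all matrices `(q a, b; q M c, q d)` of determinant `q`. `HData q p n G`: the properties of the even part `G`
of the Eichler integral of a newform of weight `2` and level `q p^n` with root number `+1` and `f | W_q = f`.
-/

set_option autoImplicit false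

namespace Pool.Agent.Helper28.TH

open Pool.Agent.Helper14.CV (G0 Homog EqC act Tl)
open Pool.Agent.Helper28.WK (Tw evw)
open Pool.Agent.Helper14.WK
open Pool.Agent.Helper28.TL

/-- `f | W_q = f` for a form of weight `k` and level `q M`: for all integers `a, b, c, d` with
`q a d - M b c = 1` and all `z` in the upper half plane
`f((q a z + b)/(q M c z + q d)) = (q M c z + q d)^k q^(-k/2) f(z)`. -/
def ALPlus (q M : ℕ) {N : ℕ} {k : ℤ} (f : CuspForm (G0 N) k) : Prop :=
  ∀ a b c d : ℤ, q * (a * d) - M * (b * c) = 1 → ∀ z : ℂ, 0 < z.im →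
    fzK f ((q * a * z + b) / (q * M * c * z + q * d)) =
      (q * M * c * z + q * d) ^ k * ((q : ℂ) ^ (k / 2))⁻¹ * fzK f z

/-- Words with primes different from `q` and `p`. -/
def OkH (q p : ℕ) (ls : List ℕ) : Prop := ∀ l ∈ ls, l.Prime ∧ l ≠ p ∧ l ≠ q

/-- The properties of the even part of the Eichler integral. -/
structure HData (q p n : ℕ) (G : ℤ → ℤ → ℂ) : Prop where
  hom : Homog G
  sym : ∀ a b c d : ℤ, a * d - b * c = 1 → (q : ℤ) * (p : ℤ) ^ n ∣ c → EqC (act a b c d G) G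
  alq : ∀ a b c d : ℤ, a * d - b * c = q → (q : ℤ) ∣ a → (q : ℤ) ∣ d → (q : ℤ) * (p : ℤ) ^ n ∣ c →
    EqC (act a b c d G) G
  fr : EqC (act 0 (-1) ((q : ℤ) * (p : ℤ) ^ n) 0 G) (-G)
  st : EqC (act (-1) 0 0 1 G) G
  tt : 2 ≤ n → ∀ x y : ℤ, (x ≠ 0 ∨ y ≠ 0) → ∑ i ∈ Finset.range p, G (p * x + (i : ℤ) * y) (p * y) = 0
  ss : 2 ≤ n → ∃ C : ℂ, ∀ x y : ℤ, (x ≠ 0 ∨ y ≠ 0) →
    ∑ i ∈ Finset.range p, G x ((i : ℤ) * ((q : ℤ) * (p : ℤ) ^ (n - 1)) * x + y) = C

end Pool.Agent.Helper28.TH
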