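import Pool.Agent.Helper28.TH.M_FinH
import Pool.Agent.Helper93.TLH.Defs

/-!
# Project TH: the final theorems in weight `2`, level `2 p^n`, in terms of `SymH` and `NewSymH`
-/

set_option autoImplicit false

namespace Pool.Agent.Helper28.TH

open Pool.Agent.Helper14.CV (Homog EqC act Tl G0)
open Pool.Agent.Helper28.WK (evw)
open Pool.Agent.Helper4.TL (OkE)
open Pool.Agent.Helper28.TL
open Pool.Agent.Helper93.TLH

theorem symH_of {p n : ℕ} (hp : p.Prime) (hp2 : p ≠ 2) {G : ℤ → ℤ → ℂ} (h : HData 2 p n G) :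
    SymH p 0 n G := by
  have hcop : IsCoprime (2 : ℤ) ((p : ℤ) ^ n) := by
    have h1 : Nat.Coprime 2 p := (Nat.coprime_primes Nat.prime_two hp).2 (Ne.symm hp2)
    exact IsCoprime.pow_right (by exact_mod_cast Nat.isCoprime_iff_coprime.2 h1)
  refine ⟨h.hom, ?_⟩
  intro a b c d hd _ hc
  rcases hd with ⟨h1, h2⟩ | ⟨h1, h2, h3, h4⟩
  · exact h.sym a b c d h1 (by exact_mod_cast hcop.mul_dvd h2 hc)
  · exact h.alq a b c d (by exact_mod_cast h1) (by exact_mod_cast h2) (by exact_mod_cast h4)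
      (by exact_mod_cast hcop.mul_dvd h3 hc)

theorem newSymH_of {p n : ℕ} (hp : p.Prime) (hp2 : p ≠ 2) (hn : 2 ≤ n) {G : ℤ → ℤ → ℂ}
    (h : HData 2 p n G) : NewSymH p n G := by
  refine ⟨symH_of hp hp2 h, ?_, ?_, ?_, h.st⟩
  · refine ⟨0, fun x y hxy => ?_⟩
    have := h.tt hn x y hxy
    simp only [tSH, Finset.sum_apply, act, zero_mul, zero_add, Pi.zero_apply, add_zero]
    exact this
  · obtain ⟨C, hC⟩ := h.ss hn
    refine ⟨C, fun x y hxy => ?_⟩
    have := hC x y hxy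
    simp only [sSH, Finset.sum_apply, act, zero_mul, add_zero, Pi.zero_apply, zero_add, one_mul]
    rw [← this]
    refine Finset.sum_congr rfl fun i _ => ?_
    congr 1
    push_cast
    ring
  · have := h.fr
    exact_mod_cast this

/-- Levels `2 p^n`, `n ≥ 2`. -/
theorem finalHN (p n : ℕ) (hp : p.Prime) (hp2 : p ≠ 2) (hn : 2 ≤ n)
    (core : ∀ G : ℤ → ℤ → ℂ, NewSymH p n G → (∀ ls : List ℕ, OkE p ls → evw 1 ls G = 0) → EqC G 0)
    [NeZero (2 * p ^ n)] (f : CuspForm (G0 (2 * p ^ n)) 2) (hf : IsNewN f)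
    (hal : ALPlus 2 (p ^ n) f) (hR : Pool.Agent.Helper14.CV.RootOne f) :
    Pool.Agent.Helper14.CV.Lan f (1 / 2) ≠ 0 :=
  finalH 2 p n Nat.prime_two hp
    (fun G hG hev => core G (newSymH_of hp hp2 hn hG) fun ls hls => hev ls hls) f hf hal hR

/-- Any level `2 p^n` without the relations at `p` (to be used for `n ≤ 1`). -/
theorem finalHS (p n : ℕ) (hp : p.Prime) (hp2 : p ≠ 2)
    (core : ∀ G : ℤ → ℤ → ℂ, SymH p 0 n G → EqC (act 0 (-1) (2 * (p : ℤ) ^ n) 0 G) (-G) →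
      EqC (act (-1) 0 0 1 G) G → (∀ ls : List ℕ, OkE p ls → evw 1 ls G = 0) → EqC G 0)
    [NeZero (2 * p ^ n)] (f : CuspForm (G0 (2 * p ^ n)) 2) (hf : IsNewN f)
    (hal : ALPlus 2 (p ^ n) f) (hR : Pool.Agent.Helper14.CV.RootOne f) :
    Pool.Agent.Helper14.CV.Lan f (1 / 2) ≠ 0 :=
  finalH 2 p n Nat.prime_two hp
    (fun G hG hev => core G (symH_of hp hp2 hG) (by have := hG.fr; exact_mod_cast this) hG.st
      fun ls hls => hev ls hls) f hf hal hR

end Pool.Agent.Helper28.TH
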