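import Pool.Agent.Helper28.TH.Defs
import Pool.Agent.Helper28.TL.M_Fin

/-!
# Project TH: from the core to the theorem in weight `2`, levels `q p^n`, `f | W_q = f`
-/

set_option autoImplicit false

open UpperHalfPlane CongruenceSubgroup
open scoped MatrixGroups

namespace Pool.Agent.Helper28.TH

open Pool.Agent.Helper14.CV (Homog EqC act Tl G0)
open Pool.Agent.Helper28.WK (Tw evw pr cp WT)
open Pool.Agent.Helper14.WK
open Pool.Agent.Helper28.TL

private lemma Tl_congr {H K : ℤ → ℤ → ℂ} (l : ℕ) (hl : 0 < l)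
    (h : ∀ p q : ℤ, (p ≠ 0 ∨ q ≠ 0) → H p q = K p q) :
    ∀ p q : ℤ, (p ≠ 0 ∨ q ≠ 0) → Tl l 1 H p q = Tl l 1 K p q := by
  intro p q hpq
  have hl0 : (l : ℤ) ≠ 0 := by exact_mod_cast hl.ne'
  simp only [Tl]
  have n1 : ((l : ℤ) * p ≠ 0 ∨ q ≠ 0) := by
    rcases hpq with h0 | h0
    · exact Or.inl (mul_ne_zero hl0 h0)
    · exact Or.inr h0
  rw [h _ _ n1]
  congr 1
  refine Finset.sum_congr rfl ?_
  intro j _
  apply h
  by_cases hq : q = 0
  · left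
    rcases hpq with h0 | h0
    · rw [hq, mul_zero, add_zero]
      exact h0
    · exact absurd hq h0
  · exact Or.inr (mul_ne_zero hl0 hq)

private lemma Tl_smul {H : ℤ → ℤ → ℂ} (l : ℕ) (c : ℂ) (p q : ℤ) :
    Tl l 1 (fun p q => c * H p q) p q = c * Tl l 1 H p q := by
  simp only [Tl]
  rw [mul_add, Finset.mul_sum]

private lemma Tl_step {K : ℤ → ℤ → ℂ} (l : ℕ) (hl : 0 < l) (lam : ℂ)
    (hT : ∀ p q : ℤ, (p ≠ 0 ∨ q ≠ 0) → Tl l 1 K p q = lam * K p q) (c : ℂ)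
    {H : ℤ → ℤ → ℂ} (hH : ∀ p q : ℤ, (p ≠ 0 ∨ q ≠ 0) → H p q = c * K p q) :
    ∀ p q : ℤ, (p ≠ 0 ∨ q ≠ 0) → Tl l 1 H p q = lam * c * K p q := by
  intro p q hpq
  have e1 := Tl_congr l hl (H := H) (K := fun p q => c * K p q) hH p q hpq
  rw [e1, Tl_smul, hT p q hpq]
  ring

/-- A word acts on a common eigenvector by a scalar. -/
theorem Tw_scalar {q r : ℕ} {K : ℤ → ℤ → ℂ}
    (hT : ∀ l : ℕ, l.Prime → l ≠ r → l ≠ q → ∃ lam : ℂ, ∀ x y : ℤ, (x ≠ 0 ∨ y ≠ 0) →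
      Tl l 1 K x y = lam * K x y) (ls : List ℕ) (hls : OkH q r ls) :
    ∃ c : ℂ, ∀ x y : ℤ, (x ≠ 0 ∨ y ≠ 0) → Tw 1 ls K x y = c * K x y := by
  induction ls with
  | nil => exact ⟨1, fun p q _ => (one_mul _).symm⟩
  | cons l ls ih =>
    obtain ⟨c, hc⟩ := ih fun x hx => hls x (List.mem_cons_of_mem _ hx)
    obtain ⟨h1, h2, h3⟩ := hls l List.mem_cons_self
    obtain ⟨lam, hlam⟩ := hT l h1 h2 h3
    exact ⟨lam * c, Tl_step l h1.pos lam hlam c hc⟩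

private lemma mp_zero (a b c d : ℤ) : mp 0 a b c d 0 = 1 := by
  simp [mp]

private lemma pr_one (I : ℤ → ℤ → ℕ → ℂ) : pr I 1 = cp I 0 := by
  rw [← Pool.Agent.Helper28.WK.pr_X_pow I 0, pow_zero]

private lemma neg_or {p q : ℤ} (hpq : p ≠ 0 ∨ q ≠ 0) : (-p ≠ 0 ∨ q ≠ 0) := by
  rcases hpq with h0 | h0
  · exact Or.inl (neg_ne_zero.mpr h0)
  · exact Or.inr h0

/-- The relation for the matrices of determinant `q`. -/
theorem alq_of (q M : ℕ) (hq : 0 < q) (N : ℕ) (hN : N = q * M) (hne : NeZero N)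
    (f : CuspForm (G0 N) (2 * ((0 : ℕ) : ℤ) + 2)) (hal : ALPlus q M f) (I : ℤ → ℤ → ℕ → ℂ)
    (hI : IsPotK 0 f I) :
    ∀ a b c d : ℤ, a * d - b * c = q → (q : ℤ) ∣ a → (q : ℤ) ∣ d → (q : ℤ) * (M : ℤ) ∣ c →
    EqC (act a b c d (cp I 0)) (cp I 0) := by
  have ke := Pool.Agent.Helper6.WK.hKE Pool.Agent.Helper63.WK.hKA1
  have ka3 := Pool.Agent.Helper80.WK.hKA3 ke
  have kp1 := Pool.Agent.Helper69.WK.hKP1
  have kp2 := Pool.Agent.Helper53.WK.hKP2 ka3 kp1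
  intro a b c d hdet ha hd hc
  obtain ⟨a', rfl⟩ := ha
  obtain ⟨d', rfl⟩ := hd
  obtain ⟨c', rfl⟩ := hc
  have hq0 : (q : ℤ) ≠ 0 := by exact_mod_cast hq.ne'
  have hqc : (q : ℂ) ≠ 0 := by exact_mod_cast hq.ne'
  have h1 : (q : ℤ) * (a' * d') - M * (b * c') = 1 := by
    have h2 : (q : ℤ) * ((q : ℤ) * (a' * d') - M * (b * c')) = q * 1 := by
      rw [mul_one]
      linear_combination hdet
    exact mul_left_cancel₀ hq0 h2
  obtain ⟨C, hC⟩ := kp2 N hne 0 f I (q * a') b (q * M * c') (q * d') ((q : ℂ)⁻¹) hI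
    (by rw [hdet]; exact_mod_cast hq) (fun z hz => by
      have h3 := hal a' b c' d' h1 z hz
      push_cast
      rw [h3]
      have e2 : (2 * ((0 : ℕ) : ℤ) + 2 : ℤ) / 2 = 1 := by norm_num
      have e3 : ∀ w : ℂ, w ^ (2 * ((0 : ℕ) : ℤ) + 2 : ℤ) = w ^ (2 : ℕ) := fun w => by
        rw [show (2 * ((0 : ℕ) : ℤ) + 2 : ℤ) = ((2 : ℕ) : ℤ) by norm_num, zpow_natCast]
      rw [e2, zpow_one, e3]
      ring) 0 le_rfl
  refine ⟨C, fun x y hxy => ?_⟩
  have := hC x y hxy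
  rw [mp_zero, pr_one, hdet] at this
  have e4 : (q : ℂ)⁻¹ * (((q : ℤ)) : ℂ) = 1 := by
    push_cast
    exact inv_mul_cancel₀ hqc
  rw [e4, one_mul] at this
  exact this

private theorem alq_evn (q M : ℕ) {I : ℤ → ℤ → ℂ}
    (h : ∀ a b c d : ℤ, a * d - b * c = q → (q : ℤ) ∣ a → (q : ℤ) ∣ d → (q : ℤ) * (M : ℤ) ∣ c →
      EqC (act a b c d I) I) :
    ∀ a b c d : ℤ, a * d - b * c = q → (q : ℤ) ∣ a → (q : ℤ) ∣ d → (q : ℤ) * (M : ℤ) ∣ c →
      EqC (act a b c d (evn I)) (evn I) := by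
  intro a b c d hdet ha hd hc
  obtain ⟨c1, h1⟩ := h a b c d hdet ha hd hc
  obtain ⟨c2, h2⟩ := h a (-b) (-c) d
    (by linarith [hdet, (by ring : a * d - -b * -c = a * d - b * c)]) ha hd ((dvd_neg).mpr hc)
  refine ⟨c1 + c2, fun p q hpq => ?_⟩
  have e1 := h1 p q hpq
  have e2 := h2 (-p) q (neg_or hpq)
  simp only [act, evn] at e1 e2 ⊢
  have e3 : a * -p + -b * q = -(a * p + b * q) := by ring
  have e4 : -c * -p + d * q = c * p + d * q := by ring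
  rw [e3, e4] at e2
  rw [e1, e2]
  ring

/-! ### Weight `2` as the case `A = 0` -/

private lemma LanK_eq {N : ℕ} [NeZero N] {k : ℤ} (hk : 0 < k) (h2 : k = 2)
    (f : CuspForm (G0 N) k) (g : CuspForm (G0 N) 2) (hfg : HEq f g) (s : ℂ) :
    LanK hk f s = Pool.Agent.Helper14.CV.Lan g s := by
  subst h2
  obtain rfl := eq_of_heq hfg
  have e : (((2 : ℤ) : ℂ) - 1) / 2 = 1 / 2 := by norm_num
  unfold LanK Pool.Agent.Helper14.CV.Lan
  rw [e]

private lemma RootOneK_of {N : ℕ} [NeZero N] {k : ℤ} (hk : 0 < k) (h2 : k = 2)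
    (f : CuspForm (G0 N) k) (g : CuspForm (G0 N) 2) (hfg : HEq f g)
    (h : Pool.Agent.Helper14.CV.RootOne g) : RootOneK hk f := by
  have hL := LanK_eq hk h2 f g hfg
  subst h2
  intro s h1 h3
  have e : (((2 : ℤ) : ℂ) - 1) / 2 = 1 / 2 := by norm_num
  have a1 : (-1 / 2 : ℝ) < s.re := by
    have : (-(((2 : ℤ) : ℝ) - 1) / 2 : ℝ) = -1 / 2 := by norm_num
    rw [← this]
    exact h1
  have a2 : s.re < (3 / 2 : ℝ) := by
    have : ((((2 : ℤ) : ℝ) + 1) / 2 : ℝ) = 3 / 2 := by norm_num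
    rw [← this]
    exact h3
  have := h s a1 a2
  unfold Pool.Agent.Helper14.CV.Lam at this
  unfold LamK
  rw [e, hL, hL]
  exact this

private lemma Fp_eq {N : ℕ} (f : CuspForm (G0 N) 2) (z : ℂ) :
    Pool.Agent.Helper14.CV.Fp f z = 2 * Real.pi * Complex.I * EK f 0 z := by
  have hpi : (2 * Real.pi * Complex.I : ℂ) ≠ 0 := Complex.two_pi_I_ne_zero
  unfold EK Pool.Agent.Helper14.CV.Fp
  rw [Finset.sum_range_one, pow_zero, Nat.descFactorial_zero, Nat.cast_one, Nat.sub_zero,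
    pow_zero, one_mul, one_mul, one_mul]
  unfold FpK
  rw [← tsum_mul_left]
  refine tsum_congr fun m => ?_
  have e : Pool.Agent.Helper14.CV.fc f m = fcK f m := rfl
  rw [e, zero_add, pow_one]
  by_cases hm : (m : ℂ) = 0
  · rw [hm]
    simp
  · field_simp

private lemma fc_zero {N : ℕ} (m : ℕ) :
    Pool.Agent.Helper14.CV.fc (0 : CuspForm (G0 N) 2) m = 0 := by
  unfold Pool.Agent.Helper14.CV.fc
  rw [FunLike.coe_zero]
  simp [UpperHalfPlane.qExpansion_zero]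

/-- The content of the core. -/
def CoreH (q p n : ℕ) : Prop := ∀ G : ℤ → ℤ → ℂ, HData q p n G →
  (∀ ls : List ℕ, OkH q p ls → evw 1 ls G = 0) → EqC G 0

/-- Levels `q p^n`. -/
theorem finalH (q p n : ℕ) (hq : q.Prime) (hp : p.Prime)
    (core : CoreH q p n) [NeZero (q * p ^ n)]
    (f : CuspForm (G0 (q * p ^ n)) 2) (hf : IsNewN f) (hal : ALPlus q (p ^ n) f)
    (hR : Pool.Agent.Helper14.CV.RootOne f) :
    Pool.Agent.Helper14.CV.Lan f (1 / 2) ≠ 0 := by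
  intro hL
  have hk : 0 < (2 * ((0 : ℕ) : ℤ) + 2 : ℤ) := by norm_num
  have h2 : (2 * ((0 : ℕ) : ℤ) + 2 : ℤ) = 2 := by norm_num
  have hfp : ∃ f' : CuspForm (G0 (q * p ^ n)) (2 * ((0 : ℕ) : ℤ) + 2),
      HEq f' f ∧ IsNewN f' ∧ ALPlus q (p ^ n) f' ∧ (∀ j z, EK f' j z = EK f j z) :=
    ⟨f, HEq.rfl, hf, hal, fun _ _ => rfl⟩
  obtain ⟨f', hff, hf', hal', hE⟩ := hfp
  have hR' : RootOneK hk f' := RootOneK_of hk h2 f' f hff hR
  have hL' : LanK hk f' (1 / 2) = 0 := by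
    rw [LanK_eq hk h2 f' f hff]
    exact hL
  have ka1 := Pool.Agent.Helper63.WK.hKA1
  have kb := Pool.Agent.Helper92.WK.hKA1b ka1
  have ke := Pool.Agent.Helper6.WK.hKE ka1
  have ka4 := Pool.Agent.Helper83.WK.hKA4 ka1 kb ke
  have ka5 := Pool.Agent.Helper86.WK.hKA5 ka1 kb ke
  have kh1 := Pool.Agent.Helper79.WK.hKH1 ka1
  have kh2 := Pool.Agent.Helper99.WK.hKH2 kh1 ke kb
  have kh3 := Pool.Agent.Helper62.WK.hKH3 kh2 Pool.Agent.Helper69.WK.hKP1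
  obtain ⟨I, hI, hI0⟩ := ka4 (q * p ^ n) inferInstance 0 f'
  have hrel := potRel_of (q * p ^ n) inferInstance hk f' hR' I hI
  have ecast : ((q * p ^ n : ℕ) : ℤ) = (q : ℤ) * (p : ℤ) ^ n := by push_cast; ring
  rw [ecast] at hrel
  have hq0 : (q : ℤ) ≠ 0 := by exact_mod_cast hq.ne_zero
  have hP0 : (p : ℤ) ≠ 0 := by exact_mod_cast hp.ne_zero
  have hN0 : (q : ℤ) * (p : ℤ) ^ n ≠ 0 := mul_ne_zero hq0 (pow_ne_zero _ hP0)
  have hp0 : p ^ (n - 1) ≠ 0 := pow_ne_zero _ hp.ne_zero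
  have uvp := fun hn : 2 ≤ n => UV_of p (q * p ^ (n - 1)) hp ((dvd_pow_self p (by omega)).mul_left q)
    (mul_ne_zero hq.ne_zero hp0) (q * p ^ n) (by
      obtain ⟨m, rfl⟩ : ∃ m, n = m + 1 := ⟨n - 1, by omega⟩
      rw [Nat.add_sub_cancel, pow_succ]
      ring) inferInstance hk f' hf' hR' I hI
  have e3 : ((q * p ^ (n - 1) : ℕ) : ℤ) = (q : ℤ) * (p : ℤ) ^ (n - 1) := by push_cast; ring
  have halI := alq_of q (p ^ n) hq.pos (q * p ^ n) rfl inferInstance f' hal' I hI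
  have halG := alq_evn q (p ^ n) halI
  have hrel' := hrel.evn hN0
  have hD : HData q p n (evn (cp I 0)) := by
    refine ⟨hrel'.hom, hrel'.sym, ?_, hrel'.fr, ?_, ?_, ?_⟩
    · intro a b c d h1 h2 h3 h4
      exact halG a b c d h1 h2 h3 (by push_cast; exact h4)
    · refine ⟨0, fun x y _ => ?_⟩
      simp only [act]
      have f1 : -1 * x + 0 * y = -x := by ring
      have f2 : 0 * x + 1 * y = y := by ring
      rw [f1, f2, evn_even, add_zero]
    · intro hn x y hxy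
      exact (uvp hn).1.evn hrel hp.pos x y hxy
    · intro hn
      exact Vr.evn (e3 ▸ (uvp hn).2)
  have hHk : ∀ l : ℕ, l.Prime → l ≠ p → l ≠ q → ∃ lam : ℂ, ∀ x y : ℤ, (x ≠ 0 ∨ y ≠ 0) →
      Tl l 1 (evn (cp I 0)) x y = lam * evn (cp I 0) x y := by
    intro l hl hlp hlq
    have hlN : ¬ l ∣ q * p ^ n := by
      intro h
      rcases (Nat.Prime.dvd_mul hl).1 h with h | h
      · exact hlq ((Nat.prime_dvd_prime_iff_eq hl hq).1 h)
      · exact hlp ((Nat.prime_dvd_prime_iff_eq hl hp).1 (hl.dvd_of_dvd_pow h))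
    refine ⟨fcK f' l, Tl_evn hrel l hl.pos _ ?_⟩
    intro x y hxy
    have := kh3 (q * p ^ n) inferInstance 0 f' I l (fcK f' l) 1 hI hl.pos
      (hf'.hecke l hl hlN) isCoprime_one_left 0 le_rfl x y hxy
    simp only [WT, pow_zero, pr_one, Nat.mul_zero, Nat.sub_self, one_smul] at this
    simp only [Tl]
    rw [add_comm]
    exact this
  have hG10 : cp I 0 (-1) 0 = cp I 0 1 0 := by
    have := hrel.hom (-1) 1 0 (by norm_num) (Or.inl one_ne_zero)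
    simpa using this
  have h10 : cp I 0 1 0 = 0 := hI0 0 le_rfl
  have h01 : cp I 0 0 1 = 0 := ka5 (q * p ^ n) inferInstance 0 hk f' I hI hL'
  have hev : ∀ ls : List ℕ, OkH q p ls → evw 1 ls (evn (cp I 0)) = 0 := by
    intro ls hls
    obtain ⟨c, hc⟩ := Tw_scalar hHk ls hls
    unfold evw
    rw [hc 1 0 (Or.inl one_ne_zero), hc 0 1 (Or.inr one_ne_zero)]
    simp only [evn, neg_zero]
    rw [hG10, h01, h10]
    ring
  obtain ⟨c, hc⟩ := core _ hD hev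
  have hPot : Pool.Agent.Helper14.CV.IsPot f
      (fun x y => 2 * Real.pi * Complex.I * cp I 0 x y) := by
    intro a b c d hdet x
    have := (hI a b c d hdet 0 le_rfl x).const_mul (2 * Real.pi * Complex.I)
    simp only [hE] at this
    simp only [Fp_eq]
    exact this
  have a1 := Pool.Agent.Helper7.CV.hA1
  have a1b := Pool.Agent.Helper10.CV.hA1b a1
  have a3 := Pool.Agent.Helper72.CV.hA3 a1
  have p1 := Pool.Agent.Helper87.CV.hP1
  have a6 := Pool.Agent.Helper96.CV.hA6 a1 a1b a3 Pool.Agent.Helper38.CV.hA6a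
    (Pool.Agent.Helper79.CV.hA6b a1) p1
  have hf0 : f = 0 := by
    refine a6 (q * p ^ n) inferInstance f _ (2 * Real.pi * Complex.I * c) hPot ?_
    intro x y hxy
    have e := hc x y hxy
    simp only [evn, Pi.zero_apply, zero_add] at e
    rw [← mul_add, e]
  have h1 : Pool.Agent.Helper14.CV.fc f 1 = 1 := hf.normalised
  rw [hf0, fc_zero] at h1
  exact zero_ne_one h1

end Pool.Agent.Helper28.TH
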