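import Pool.Agent.Helper28.TH.StV
import Pool.Agent.Helper28.THV.M_RgU2
import Pool.Agent.Helper79.TLN.StN

/-!
# Project TH, low levels: level `2p`, `a` even (weights `2a+2` congruent to two modulo four): statements

`f` is a newform of level `2p`, `p` an odd prime, weight `2a+2`, `a ≥ 2` even, `f | W_2 = f`, root number `+1`, `L(1/2,f) = 0`. The `p`-adic argument gives a symbol `Ψ` of level TWO for the extended group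
with `κ Φ = u*Ψ - Ψ`, `κ ≠ 0` an integer. We show that then `F = ∑_s p^((a+1)s) f(p^s z)` is a cusp form of level `2` with the same eigenvalues as `f`: contradiction to `f` new. This is the analogue of
`Helper28/LV/StN.lean` (level `p`; `Gp`, `EE`, `FF`, `bco`, `CA1`, ..., `CA4` of that file are used unchanged) and of `Helper79/TLN/StN.lean` (level `4p`). `(0 -1; 2 0)` takes the place of `(0 -1; 1 0)`.
-/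

set_option autoImplicit false

open Pool.Agent.Helper14.CV (G0 Homog EqC act StFar)
open Pool.Agent.Helper28.WK
open Pool.Agent.Helper14.WK

namespace Pool.Agent.Helper28.TH

open Pool.Agent.Helper28.LV
open Pool.Agent.Helper93.TLH

/-- `Ψ` is a symbol of level two and weight `2a+2` for the extended group, with `κ Φ_t(D) = p^(a-t) Ψ_t(uD) - Ψ_t(D)`. Compare `L1S`, `L1SE`. -/
structure L1H {R : Type} [AddCommGroup R] (p a : ℕ) (κ : ℤ) (Φ Ψ : ℤ → ℤ → ℕ → R) : Prop where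
  hom : ∀ i : ℕ, i ≤ 2 * a → Homog (cp Ψ i)
  inf : ∀ i : ℕ, i ≤ 2 * a → Ψ 1 0 i = 0
  eqv : ∀ α β γ δ : ℤ, HTy α β γ δ → ∀ i : ℕ, i ≤ 2 * a →
    EqC (((α * δ - β * γ) ^ a : ℤ) • act α β γ δ (cp Ψ i))
      (pr Ψ ((Polynomial.C α * Polynomial.X + Polynomial.C β) ^ i *
        (Polynomial.C γ * Polynomial.X + Polynomial.C δ) ^ (2 * a - i)))
  rel : ∀ t : ℕ, t ≤ 2 * a → ∀ x y : ℤ, (x ≠ 0 ∨ y ≠ 0) →
    (κ * (p : ℤ) ^ t) • (Φ x y t - Φ 1 0 t) =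
      ((p : ℤ) ^ a) • Ψ (p * x) y t - ((p : ℤ) ^ t) • Ψ x y t

/-- The system `F_D` of functions of a matrix belonging to `ψ`. Compare `FSys`, `FSysE`. -/
def FSysH (p a : ℕ) (κ : ℤ) [Fact p.Prime] (Φ : ℤ → ℤ → ℕ → ℤ_[p])
    (F : ℤ → ℤ → ℤ → ℤ → ℚ_[p] → ℚ_[p] → ℚ_[p] → ℚ_[p] → ℚ_[p]) : Prop :=
  (∀ v1 v2 w1 w2 : ℤ, (v1 ≠ 0 ∨ v2 ≠ 0) → (w1 ≠ 0 ∨ w2 ≠ 0) → Rg a (F v1 v2 w1 w2)) ∧
  (∀ v1 v2 w1 w2 z1 z2 : ℤ, (v1 ≠ 0 ∨ v2 ≠ 0) → (w1 ≠ 0 ∨ w2 ≠ 0) → (z1 ≠ 0 ∨ z2 ≠ 0) →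
    ∀ α β γ δ : ℚ_[p], F v1 v2 w1 w2 α β γ δ + F w1 w2 z1 z2 α β γ δ = F v1 v2 z1 z2 α β γ δ) ∧
  (∀ v1 v2 w1 w2 k : ℤ, (v1 ≠ 0 ∨ v2 ≠ 0) → (w1 ≠ 0 ∨ w2 ≠ 0) → k ≠ 0 →
    ∀ α β γ δ : ℚ_[p], F v1 v2 (k * w1) (k * w2) α β γ δ = F v1 v2 w1 w2 α β γ δ) ∧
  (∀ v1 v2 w1 w2 : ℤ, (v1 ≠ 0 ∨ v2 ≠ 0) → (w1 ≠ 0 ∨ w2 ≠ 0) → ∀ x y z t : ℤ, HTy x y z t →
    ∀ α β γ δ : ℚ_[p], (((x * t - y * z) ^ a : ℤ) : ℚ_[p]) *
        F (x * v1 + y * v2) (z * v1 + t * v2) (x * w1 + y * w2) (z * w1 + t * w2) α β γ δ =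
        F v1 v2 w1 w2 (α * x + β * z) (α * y + β * t) (γ * x + δ * z) (γ * y + δ * t)) ∧
  (∀ v1 v2 w1 w2 : ℤ, (v1 ≠ 0 ∨ v2 ≠ 0) → (w1 ≠ 0 ∨ w2 ≠ 0) → ∀ α β γ δ : ℚ_[p],
    (κ : ℚ_[p]) * EGf a Φ v1 v2 w1 w2 α β γ δ =
      F (p * v1) v2 (p * w1) w2 α (p * β) (γ / p) δ - F v1 v2 w1 w2 α β γ δ)

/-- QFA-H. Models: Pool/Agent/Helper7/LV/M_QFa.lean (`StQFa`), Pool/Agent/Helper60/TLN/M_QFa.lean (`SNQFa`). Proof. (0) `Nc a c ψ ≈ 0` for all even `c`: `(Nc a c ψ)(u v) = (Nc a (p c) (ψ∘u))(v)`, constant, and `(x, y)` is up to a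
factor `u (x, p y)`. `SymH p M M` gives `SymH p M (M+1)`; MSH gives `F_D` in `Rg` with `det(g)^a (ψ(gw) - ψ(gv)) = F_D(g)` for all `HTy` matrices `g`. All identities between `Rg` functions (RGT): by RGU in the form of the PROVED theorem
`Pool.Agent.Helper28.THV.hRgU2` (Helper28/THV/M_RgU2.lean: vanishing on the integral matrices of determinant one near `1` with EVEN lower left entry is enough). Fourth: for integral `g` in `Γ₀(2)` and `h = (x y; z t)` `HTy`, `gh` is `HTy` of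
determinant `det h`: `F_D(gh) = det(h)^a ψ(ghD) = det(h)^a F_{hD}(g)`. Fifth: for integral `g = (α β; γ δ)` of determinant one with `2 ∣ γ`, `p ∣ γ`: `u g = g' u`, `g' = (α pβ; γ/p δ)` in `Γ₀(2)`, `F_{uD}(g') = ψ(u g D)`, and
`κ G(g D) = ψ(u g D) - ψ(g D)`, `G = cp Φ a` (EG). -/
def ZQFa : Prop := MSH → RgT → EG → ∀ (p : ℕ) (_ : Fact p.Prime) (κ : ℤ) (a : ℕ)
  (Φ : ℤ → ℤ → ℕ → ℤ_[p]) (ψ : ℤ → ℤ → ℤ_[p]), p ≠ 2 →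
  (∀ α β γ δ : ℤ, α * δ - β * γ = 1 → (2 : ℤ) ∣ γ → (p : ℤ) ∣ γ →
    EqC (act α β γ δ (cp Φ a)) (pr Φ ((Polynomial.C α * Polynomial.X + Polynomial.C β) ^ a *
      (Polynomial.C γ * Polynomial.X + Polynomial.C δ) ^ a))) →
  Homog ψ → (∀ M : ℕ, 3 ≤ M → SymH p M M (redP M ψ)) →
  EqC (act p 0 0 1 ψ - ψ) (κ • cp Φ a) →
  (∀ h : ℤ, EqC (Nb a h ψ) 0) → (∀ c : ℤ, 2 * (p : ℤ) ∣ c → EqC (Nc a c (act p 0 0 1 ψ)) 0) →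
  ∃ F : ℤ → ℤ → ℤ → ℤ → ℚ_[p] → ℚ_[p] → ℚ_[p] → ℚ_[p] → ℚ_[p], FSysH p a κ Φ F

/-- QFB-H. Models: Pool/Agent/Helper98/LV/M_QFb.lean (`StQFb`), Pool/Agent/Helper99/TLN/M_QFb.lean (`SNQFb`). Proof. `Q_D(r, s) = F_D(r, s, r, s) = ∑_{t ≤ 2a} q_t(D) r^t s^(2a-t)`, `Ψ x y t = q_t((1,0),(x,y)) / (2a choose t)`
(`0` at the origin). `eqv`: `det(g)^a Q_{gD}(r,s) = Q_D(rα+sγ, rβ+sδ)` for `HTy` `g = (α β; γ δ)`; compare the coefficients. `rel`: as in the models, `κ Φ_t(D) = p^(a-t) Ψ_t(uD) - Ψ_t(D)`. -/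
def ZQFb : Prop := RgT → ∀ (p : ℕ) (_ : Fact p.Prime) (a : ℕ) (κ : ℤ) (Φ : ℤ → ℤ → ℕ → ℤ_[p])
  (F : ℤ → ℤ → ℤ → ℤ → ℚ_[p] → ℚ_[p] → ℚ_[p] → ℚ_[p] → ℚ_[p]), FSysH p a κ Φ F →
  ∃ Ψ : ℤ → ℤ → ℕ → ℚ_[p], L1H p a κ (fun x y i => (Φ x y i : ℚ_[p])) Ψ

/-- The content of FG-H. -/
def FGH : Prop := ∀ (p a n : ℕ) (R : Type) (_ : AddCommGroup R) (Φ : ℤ → ℤ → ℕ → R), p.Prime →
  WSNH p a n Φ → ∃ S : Finset R, ∀ i : ℕ, i ≤ 2 * a → ∀ x y : ℤ, (x ≠ 0 ∨ y ≠ 0) →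
    Φ x y i - Φ 1 0 i ∈ AddSubgroup.closure (S : Set R)

/-- FG-H. Finite generation (models Pool/Agent/Helper61/LV/M_FG.lean, `StFG`, Pool/Agent/Helper70/TLN/M_FG.lean; matrices of determinant one which agree modulo `2 p^n`; only `eqv` is used). -/
def ZFG : Prop := StFar → FGH

/-- DC-H. Descent to `ℂ` (models Pool/Agent/Helper9/LV/M_DC.lean, `StDC`, Pool/Agent/Helper6/TLN/M_DC.lean). -/
def ZDC : Prop := FGH → StFar → ZLMap → ZLDen → ∀ (p : ℕ) (_ : Fact p.Prime) (a : ℕ) (κ : ℤ),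
  (∀ Φ : ℤ → ℤ → ℕ → ℤ_[p], WSNH p a 1 Φ →
    ∃ Ψ : ℤ → ℤ → ℕ → ℚ_[p], L1H p a κ (fun x y i => (Φ x y i : ℚ_[p])) Ψ) →
  ∀ Φ : ℤ → ℤ → ℕ → ℂ, WSNH p a 1 Φ → ∃ Ψ : ℤ → ℤ → ℕ → ℂ, L1H p a κ Φ Ψ

/-- The content of NS-H. -/
def NSH : Prop := ∀ (N p a : ℕ) (_ : NeZero N) (κ : ℤ) (f : CuspForm (G0 N) (2 * a + 2))
  (I Ψ : ℤ → ℤ → ℕ → ℂ), p.Prime → Even a → 1 ≤ a → IsPotK a f I →
  (∀ i : ℕ, i ≤ 2 * a → I 1 0 i = 0) → (∀ i : ℕ, i ≤ 2 * a → Homog (cp I i)) →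
  L1H p a κ (PhN a I) Ψ → ∀ r q : ℤ, 0 < q →
  ∑ t ∈ Finset.range (2 * a + 1), ((2 * a).choose t : ℂ) * (-(r : ℂ)) ^ (2 * a - t) * (q : ℂ) ^ t *
    Ψ r q t = (κ : ℂ) * Complex.I * (q : ℂ) ^ (2 * a) * Gp p a f ((r : ℝ) / (q : ℝ))

/-- NS-H. The series for `Ψ` (models Pool/Agent/Helper55/LV/M_NS.lean, `StNS`, the same formulas with `4` in place of `κ`, and Pool/Agent/Helper44/TLN/M_NS.lean; only `inf`, `rel` and `eqv` for `(1 1; 0 1)` are used). -/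
def ZNS : Prop := SKB1 → SKB2 → SKB3 → NSH

/-- The content of NR-H. -/
def NRH : Prop := ∀ (N p a : ℕ) (_ : NeZero N) (κ : ℤ) (f : CuspForm (G0 N) (2 * a + 2))
  (I Ψ : ℤ → ℤ → ℕ → ℂ), κ ≠ 0 → p.Prime → Even a → 1 ≤ a → IsPotK a f I →
  (∀ i : ℕ, i ≤ 2 * a → I 1 0 i = 0) → (∀ i : ℕ, i ≤ 2 * a → Homog (cp I i)) →
  L1H p a κ (PhN a I) Ψ → ∃ P : Polynomial ℂ, P.natDegree ≤ 2 * a ∧
    ∀ x : ℝ, x ≠ 0 → (2 : ℂ) ^ a * (x : ℂ) ^ (2 * a) * Gp p a f (-1 / (2 * x)) =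
      Gp p a f x + P.eval (x : ℂ)

/-- NR-H. The transformation under `-1/(2x)` (models Pool/Agent/Helper28/LV/M_NR.lean, `StNR`, Pool/Agent/Helper70/TLN/M_NR.lean). Proof. `eqv` for `W = (0 -1; 2 0)` (`HTy` of determinant two):
`2^a Ψ_t(-y, 2x) = (-1)^t 2^(2a-t) Ψ_(2a-t)(x, y) + c_t`. With `hΨ(x,y) = ∑_t (2a choose t) (-x)^(2a-t) y^t Ψ_t(x,y)` (all nonzero vectors)
`hΨ(-y,2x) = 2^a hΨ(x,y) + 2^(-a) ∑_t (2a choose t) y^(2a-t) (2x)^t c_t`, and `hΨ(-v) = hΨ(v)` (`Homog`, even degree). For `r ≠ 0`, `q > 0`: `hΨ(r,q) = κ i q^(2a) Gp(r/q)` and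
`hΨ(-q,2r) = κ i (2r)^(2a) Gp(-q/(2r))` (NS-H, if `r < 0` use `-v`). Divide by `κ i 2^a q^(2a)`: the claim for rational `x ≠ 0` with `P = (κ i 4^a)⁻¹ ∑_t (2a choose t) 2^t c_t X^t`. `Gp` is continuous, so for all real `x ≠ 0`. -/
def ZNR : Prop := SKB1 → SKB3 → NSH → NRH

/-- The content of NE-H. -/
def NEH : Prop := ∀ (N p a : ℕ) (_ : NeZero N) (f : CuspForm (G0 N) (2 * a + 2)),
  p.Prime → Even a → 1 ≤ a →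
  bco p a f 0 = 0 ∧ bco p a f 1 = fcK f 1 ∧
  Summable (fun M : ℕ => ‖bco p a f M‖ / (M : ℝ) ^ (2 * a + 1)) ∧
  ∀ x : ℝ, Gp p a f x = ((2 * a).factorial : ℂ) * Complex.I *
    (EE (2 * a) (bco p a f) x + EE (2 * a) (bco p a f) (-x))

/-- NE-H (models Pool/Agent/Helper71/LV/M_NE.lean, `StNE`, the same formula for level `p`, and Pool/Agent/Helper85/TLN/M_NE.lean, which is for any level). -/
def ZNE : Prop := SKA1 → Pool.Agent.Helper79.TLN.NHE → NEH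

/-- The content of CA5-H. -/
def CA5H : Prop := ∀ (a : ℕ) (b : ℕ → ℂ) (P : Polynomial ℂ), P.natDegree ≤ 2 * a → b 0 = 0 →
  Summable (fun M : ℕ => ‖b M‖ / (M : ℝ) ^ (2 * a + 1)) →
  (∀ x : ℝ, x ≠ 0 → (2 : ℂ) ^ a * (x : ℂ) ^ (2 * a) *
      (EE (2 * a) b (-1 / (2 * (x : ℂ))) + EE (2 * a) b (1 / (2 * (x : ℂ)))) =
    EE (2 * a) b x + EE (2 * a) b (-x) + P.eval (x : ℂ)) →
  ∀ z : ℂ, 0 < z.im → FF b (-1 / (2 * z)) = (2 : ℂ) ^ (a + 1) * z ^ (2 * a + 2) * FF b z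

/-- CA5-H. The gluing argument. Models: Pool/Agent/Helper92/LV/M_CA5.lean (`StCA5`), Pool/Agent/Helper55/TLN/M_CA5.lean (`SNCA5`). Proof. `n = 2a`, `E = EE n b`, `s = √2`. Let `g(w) = E(w/s)` and `R(w) = g(w) - w^n g(-1/w)` for `Im w ≥ 0`,
`w ≠ 0`, `R(w) = w^n g(1/w) - g(-w) - P(w/s)` for `Im w < 0`. For real `w = s x`: `-1/(s w) = -1/(2x)`, `w^n = 2^a x^n`, so the hypothesis says that the two formulas agree for real `w ≠ 0`; `R` is continuous away from `0`, differentiable off the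
real axis, so by CA2 on `{0}ᶜ`. `‖R w‖ ≤ C (1+‖w‖)^n` (CA1, `P` of degree `≤ n`). CA3: the `(n+1)`-st derivative of `R` is `0`; on the upper half plane it is (CA1, CA4, `g^(n+1)(w) = s^(-n-1) FF b (w/s)`)
`s^(-n-1) (F(w/s) - w^(-n-2) F(-1/(s w)))`, `F = FF b`. Put `w = s z`: `w^(n+2) = 2^(a+1) z^(n+2)`. -/
def ZCA5 : Prop := CA1 → CA2 → CA3 → CA4 → CA5H

/-- MF-H. Construction of a cusp form of level `2`. Models: Pool/Agent/Helper63/LV/M_MF.lean (`MF`), Pool/Agent/Helper36/TLN/M_MF.lean (`SNMF`). Proof. `F = FF b` on the upper half plane, `k = 2a+2`: holomorphic, `F(z+1) = F(z)`,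
`F(-1/(2z)) = 2^(a+1) z^k F(z)`. `Γ₀(2)` is generated by `T = (1 1; 0 1)`, `V = (1 0; 2 1)`, `-1` (Euclid; cf. Pool/Agent/Helper94/THW/M_UIp.lean), and `V = W T⁻¹ W⁻¹` up to a scalar, `W = (0 -1; 2 0)`:
`F(z/(2z+1)) = (2z+1)^k F(z)` (put `w = -1/(2z)`: `z/(2z+1) = -1/(2(w-1))`). So `F` is invariant in weight `k` under `Γ₀(2)`. Cusps: for `γ = (α β; γ' δ)` in `SL₂(ℤ)`: if `γ'` is even, `F|γ = F`; if `γ'` is odd: `γ = g S T^j` with `g` in `Γ₀(2)`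
(`j ≡ δ γ'⁻¹` modulo `2`), `F|γ = (F|S)(z+j)`, and `F(-1/z) = F(-1/(2 (z/2))) = 2^(a+1) (z/2)^k F(z/2)`, so `(F|S)(z) = 2^(-a-1) F(z/2)`. Both tend to `0` for `Im z → ∞` (`b 0 = 0`, polynomial growth of `b`). The coefficients: uniqueness of
the `q`-expansion, as in the models. -/
def ZMF : Prop := ∀ (a : ℕ) (b : ℕ → ℂ), b 0 = 0 →
  Summable (fun M : ℕ => ‖b M‖ / (M : ℝ) ^ (2 * a + 1)) →
  (∀ z : ℂ, 0 < z.im → FF b (-1 / (2 * z)) = (2 : ℂ) ^ (a + 1) * z ^ (2 * a + 2) * FF b z) →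
  ∃ g : CuspForm (G0 2) (2 * a + 2), ∀ M : ℕ, fcK g M = b M

end Pool.Agent.Helper28.TH
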