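import Pool.Agent.Helper28.TH.StW
import Pool.Agent.Helper28.LV.StL

/-!
# Project TH, low levels `2 p^n`, `n = 0, 1, 2`, in the weights `2a+2 ≥ 4`: statements

The statements of `Helper28/LV/StL.lean` (project LV; with signs `Helper28/TL/StV.lean`) for the extended group `HTy` of `Helper93/TLH/Defs.lean`. For `n = 0, 1` the coordinate is `z`, the Fricke matrix
`(0 -1; 2 p^n 0)`. `u = (p 0; 0 1)`, `n(b) = (1 b; 0 1)`, `n'(c) = (1 0; c 1)` with even `c`, `W = (0 -1; 2 0)` (an `HTy` matrix of determinant two). `D` is a pair of nonzero vectors `(v, w)`, `H(D) = H(w) - H(v)`,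
`gD = (gv, gw)`. For `HTy` matrices `g` the rule is `det(g)^a H(gD) = F_D(g)` and `F_D(x g) = det(g)^a F_{gD}(x)`. Everywhere `p ≠ 2`; `RgT`, `RgU`, `EG`, `Rg`, `EGf` of project LV are used unchanged.
-/

set_option autoImplicit false

open Pool.Agent.Helper14.CV

namespace Pool.Agent.Helper28.TH

open Pool.Agent.Helper28.WK
open Pool.Agent.Helper28.LV
open Pool.Agent.Helper4.TL (OkE)
open Pool.Agent.Helper93.TLH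

/-- Symbols of weight `2a+2` and level `2 p^n` in the coordinate `z` (no trace condition at `p`) for the extended group. Compare `WSN` of project LV and `WSymH`. -/
structure WSNH {R : Type} [AddCommGroup R] (p a n : ℕ) (Φ : ℤ → ℤ → ℕ → R) : Prop where
  hom : ∀ i : ℕ, i ≤ 2 * a → Homog (cp Φ i)
  eqv : ∀ α β γ δ : ℤ, α * δ - β * γ = 1 → (2 : ℤ) ∣ γ → (p : ℤ) ^ n ∣ γ → ∀ i : ℕ, i ≤ 2 * a →
    EqC (act α β γ δ (cp Φ i)) (pr Φ ((Polynomial.C α * Polynomial.X + Polynomial.C β) ^ i *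
      (Polynomial.C γ * Polynomial.X + Polynomial.C δ) ^ (2 * a - i)))
  eqq : ∀ α β γ δ : ℤ, α * δ - β * γ = 2 → (2 : ℤ) ∣ α → (2 : ℤ) ∣ γ → (2 : ℤ) ∣ δ →
    (p : ℤ) ^ n ∣ γ → ∀ i : ℕ, i ≤ 2 * a →
    EqC ((2 ^ a : ℤ) • act α β γ δ (cp Φ i)) (pr Φ ((Polynomial.C α * Polynomial.X + Polynomial.C β) ^ i *
      (Polynomial.C γ * Polynomial.X + Polynomial.C δ) ^ (2 * a - i)))
  fr : EqC (act 0 (-1) (2 * (p : ℤ) ^ n) 0 (cp Φ a)) (-(cp Φ a))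
  st : EqC (act (-1) 0 0 1 (cp Φ a)) (cp Φ a)
  hk : ∀ M : ℕ, 1 ≤ M → ∀ ls : List ℕ, OkE p ls →
    WTw a ((p : ℤ) ^ M) ls Φ 1 0 a = WTw a ((p : ℤ) ^ M) ls Φ 0 1 a

/-- LMAP-H. Additive maps (model Pool/Agent/Helper54/LV/M_LMap.lean; `eqq` as `eqv`). -/
def ZLMap : Prop := ∀ (p a n : ℕ), p ≠ 0 → ∀ (R S : Type) (_ : AddCommGroup R) (_ : AddCommGroup S)
  (lam : R →+ S) (Φ : ℤ → ℤ → ℕ → R),
  (WSNH p a n Φ → WSNH p a n (fun x y i => lam (Φ x y i))) ∧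
  (Function.Injective lam → WSNH p a n (fun x y i => lam (Φ x y i)) → WSNH p a n Φ) ∧
  ∀ Φ' : ℤ → ℤ → ℕ → R, (∀ i : ℕ, i ≤ 2 * a → EqC (cp Φ' i) (cp Φ i)) → WSNH p a n Φ →
    WSNH p a n Φ'

/-- LDEN-H. Bounded denominators (model Pool/Agent/Helper62/LV/M_LDen.lean; two matrices of determinant one which agree modulo `2 p^n`; only `eqv` is used). -/
def ZLDen : Prop := StFar → ZLMap → ∀ (p a n : ℕ) (Φ : ℤ → ℤ → ℕ → ℚ), p.Prime → WSNH p a n Φ →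
  ∃ (N : ℤ) (Ψ : ℤ → ℤ → ℕ → ℤ), N ≠ 0 ∧ WSNH p a n Ψ ∧
    ∀ i : ℕ, i ≤ 2 * a → EqC (fun x y => ((Ψ x y i : ℤ) : ℚ)) (N • cp Φ i)

/-- LQC-H. From `ℤ_p` to `ℂ` (model Pool/Agent/Helper67/LV/M_LQC.lean). -/
def ZLQC : Prop := StFar → ZLMap → ZLDen → ∀ (p : ℕ) (_ : Fact p.Prime) (a n : ℕ),
  (∀ Φ : ℤ → ℤ → ℕ → ℤ_[p], WSNH p a n Φ → EqC (cp Φ a) 0) →
  ∀ Φ : ℤ → ℤ → ℕ → ℂ, WSNH p a n Φ → EqC (cp Φ a) 0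

/-- LW1-H (model Pool/Agent/Helper4/LV/M_LW1.lean and `SHW1`: for determinant two `2` is a unit modulo `p^M`). -/
def ZLW1 : Prop := ∀ (p : ℕ) (_ : Fact p.Prime) (a n : ℕ) (Φ : ℤ → ℤ → ℕ → ℤ_[p]), p ≠ 2 →
  WSNH p a n Φ → ∀ M : ℕ, 1 ≤ M → SymH p M (M + n) (redP M (cp Φ a))

/-- LW2-H (model Pool/Agent/Helper61/LV/M_LW2.lean): all `h`, `2 p^n ∣ c`. -/
def ZLW2 : Prop := ∀ (p : ℕ) (_ : Fact p.Prime) (a n : ℕ) (Φ : ℤ → ℤ → ℕ → ℤ_[p]),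
  WSNH p a n Φ → (∀ h : ℤ, EqC (Nb a h (cp Φ a)) 0) ∧
    (∀ c : ℤ, 2 * (p : ℤ) ^ n ∣ c → EqC (Nc a c (cp Φ a)) 0)

/-- LW4-H (model Pool/Agent/Helper60/LV/M_LW4.lean; only `hk` is used). -/
def ZLW4 : Prop := ∀ (p : ℕ) (_ : Fact p.Prime) (a n : ℕ) (Φ : ℤ → ℤ → ℕ → ℤ_[p]),
  WSNH p a n Φ → ∀ M : ℕ, 1 ≤ M → ∀ ls : List ℕ, OkE p ls →
    evw ((p : ℤ) ^ M) ls (redP M (cp Φ a)) = 0

/-- LPOL-H. Polynomiality in the coordinate `z` (model Pool/Agent/Helper8/LV/M_LPol.lean, `StLPol`), with `2 p^n ∣ c` and a factor `κ`. -/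
def ZLPol : Prop := ∀ (p : ℕ) (_ : Fact p.Prime) (κ : ℤ) (a n : ℕ) (G ψ : ℤ → ℤ → ℤ_[p]), p ≠ 2 →
  Homog G → Homog ψ → (∀ M : ℕ, 3 ≤ M → SymH p M (M + n - 1) (redP M ψ)) →
  EqC (act p 0 0 1 ψ - ψ) (κ • G) → (∀ h : ℤ, EqC (Nb a h G) 0) →
  (∀ c : ℤ, 2 * (p : ℤ) ^ n ∣ c → EqC (Nc a c G) 0) →
  (∀ h : ℤ, EqC (Nb a h ψ) 0) ∧
    (∀ c : ℤ, 2 * (p : ℤ) ^ n ∣ c → EqC (Nc a c (act p 0 0 1 ψ)) 0)

/-- The content of MCG-H. -/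
def MCGH : Prop := ∀ (p : ℕ) (_ : Fact p.Prime) (a ν : ℕ) (H : ℤ → ℤ → ℤ_[p]), 1 ≤ ν → Homog H →
  (∀ M : ℕ, 3 ≤ M → SymH p M (M + ν) (redP M H)) → (∀ h : ℤ, EqC (Nb a h H) 0) →
  (∀ c : ℤ, 2 * (p : ℤ) ^ ν ∣ c → EqC (Nc a c H) 0) →
  ∀ v1 v2 w1 w2 : ℤ, (v1 ≠ 0 ∨ v2 ≠ 0) → (w1 ≠ 0 ∨ w2 ≠ 0) →
  ∃ P : ℕ → ℕ → ℚ_[p], ∀ (L : ℕ) (x y c : ℤ), 3 ≤ L →
    (p : ℤ) ^ L ∣ c * (1 - 2 * (p : ℤ) ^ ν * x * y) - y →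
    ‖(1 - 2 * (p : ℚ_[p]) ^ ν * x * y) ^ a *
      ((H (w1 + x * w2) (2 * (p : ℤ) ^ ν * c * (w1 + x * w2) + w2) -
        H (v1 + x * v2) (2 * (p : ℤ) ^ ν * c * (v1 + x * v2) + v2) : ℤ_[p]) : ℚ_[p]) -
      ∑ i ∈ Finset.range (a + 1), ∑ j ∈ Finset.range (a + 1), P i j * ((x : ℚ_[p]) ^ i * (y : ℚ_[p]) ^ j)‖ ≤
      ((p : ℝ) ^ L)⁻¹

/-- MCG-H (model Pool/Agent/Helper7/LV/M_MCG.lean, `2 p^ν` in place of `p^ν`). -/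
def ZMCG : Prop := SHGp → StPl1 → SHCC → MCGH

/-- The content of MC-H: `det(g)^a H(gD) = F_D(g)` for the `HTy` matrices `g` with `p^ν ∣ γ`. -/
def MCH : Prop := ∀ (p : ℕ) (_ : Fact p.Prime) (a ν : ℕ) (H : ℤ → ℤ → ℤ_[p]), p ≠ 2 → 1 ≤ ν → Homog H →
  (∀ M : ℕ, 3 ≤ M → SymH p M (M + ν) (redP M H)) → (∀ h : ℤ, EqC (Nb a h H) 0) →
  (∀ c : ℤ, 2 * (p : ℤ) ^ ν ∣ c → EqC (Nc a c H) 0) →
  ∀ v1 v2 w1 w2 : ℤ, (v1 ≠ 0 ∨ v2 ≠ 0) → (w1 ≠ 0 ∨ w2 ≠ 0) →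
  ∃ F : ℚ_[p] → ℚ_[p] → ℚ_[p] → ℚ_[p] → ℚ_[p], Rg a F ∧ ∀ α β γ δ : ℤ,
    HTy α β γ δ → (p : ℤ) ^ ν ∣ γ →
    (((((α * δ - β * γ) ^ a : ℤ) : ℤ_[p]) *
      (H (α * w1 + β * w2) (γ * w1 + δ * w2) - H (α * v1 + β * v2) (γ * v1 + δ * v2)) : ℤ_[p]) : ℚ_[p]) =
      F α β γ δ

/-- MC-H (model Pool/Agent/Helper69/LV/M_MC.lean). Step (iv): `F(α,β,γ,δ) = ∑ P_ij (2 p^ν)^(-j) α^(a-i) β^i γ^j δ^(a-j)`. Let `g = (α β; γ δ)` be `HTy` with `p^ν ∣ γ`, `e = αδ - βγ` (`1` or `2`); `α, δ` are prime to `p`.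
For `L ≥ 3` choose integers with `α x ≡ β`, `2 δ y ≡ γ/p^ν`, `2 e c ≡ α (γ/p^ν)` modulo `p^L` (`p` odd); then `c (1 - 2 p^ν x y) ≡ y` (`1 - 2p^ν xy ≡ e/(αδ)`). `K = g (n'(2p^ν c) n(x))⁻¹` is `HTy` of determinant `e`
(entries `α(1+Cx) - βC`, `β - αx`, `γ(1+Cx) - δC`, `δ - γx`, `C = 2p^ν c`), has upper right entry divisible by `p^L` and lower left entry divisible by `p^(L+ν)`, so `H(g D) ≡ H(n'(2p^ν c) n(x) D)` modulo `p^L`. For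
`L → ∞`: `(e/(αδ))^a H(gD) = ∑ P_ij (β/α)^i (γ/(2p^ν δ))^j`. -/
def ZMC : Prop := MCGH → MCH

/-- The content of MS-H. -/
def MSH : Prop := ∀ (p : ℕ) (_ : Fact p.Prime) (a : ℕ) (H : ℤ → ℤ → ℤ_[p]), p ≠ 2 → Homog H →
  (∀ M : ℕ, 3 ≤ M → SymH p M (M + 1) (redP M H)) → (∀ h : ℤ, EqC (Nb a h H) 0) →
  (∀ c : ℤ, 2 ∣ c → EqC (Nc a c H) 0) →
  ∃ F : ℤ → ℤ → ℤ → ℤ → ℚ_[p] → ℚ_[p] → ℚ_[p] → ℚ_[p] → ℚ_[p],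
    ∀ v1 v2 w1 w2 : ℤ, (v1 ≠ 0 ∨ v2 ≠ 0) → (w1 ≠ 0 ∨ w2 ≠ 0) → Rg a (F v1 v2 w1 w2) ∧
    ∀ α β γ δ : ℤ, HTy α β γ δ →
    (((((α * δ - β * γ) ^ a : ℤ) : ℤ_[p]) *
      (H (α * w1 + β * w2) (γ * w1 + δ * w2) - H (α * v1 + β * v2) (γ * v1 + δ * v2)) : ℤ_[p]) : ℚ_[p]) =
      F v1 v2 w1 w2 α β γ δ

/-- MS-H (models Pool/Agent/Helper9/LV/M_MS.lean, Pool/Agent/Helper70/TLV/M_MS.lean). `E` = set of `HTy` matrices `g` with, for all `D`: `det(g)^a H(gD) = F_D(g)`, and for all `x` over `ℚ_p` `F_D(x g) = det(g)^a F_{gD}(x)`;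
closed under products up to scalars (`Rg`: `F(k x) = k^(2a) F(x)`). (1) All `HTy` matrices with `p ∣ γ` are in `E` (MCH with `ν = 1`, RGU). (2) `n'(2c)` in `E` for all integers `c`: as in `StMS` (PL1 for
`c ↦ H(n'(2c)D)`). (3) `Γ₀(2)` (even lower left entry, determinant one) is generated by `n(±1)`, `n'(±2)` and `-1`. (4) `g₀ = (2 1; 2p 1+p)` is `HTy` of determinant two and in `E` by (1), and every `HTy` matrix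
of determinant two is `g g₀` with `g` in `Γ₀(2)`. -/
def ZMS : Prop := MCH → StPl1 → RgT → RgU → MSH

/-- The content of UIW-H. -/
def UIWH : Prop := ∀ (p : ℕ) (_ : Fact p.Prime) (κ : ℤ) (n : ℕ) (G ψ : ℤ → ℤ → ℤ_[p]), p ≠ 2 →
  Homog ψ → (∀ M : ℕ, 3 ≤ M → SymH p M (M + n - 1) (redP M ψ)) →
  EqC (act p 0 0 1 ψ - ψ) (κ • G) → EqC (act 0 (-1) (2 * (p : ℤ) ^ n) 0 G) (-G) →
  EqC (act 0 (-1) (2 * (p : ℤ) ^ n) 0 ψ) (act p 0 0 1 ψ)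

/-- UIW-H. The involution (models Pool/Agent/Helper90/LV/M_UIW.lean, Pool/Agent/Helper51/TLV/M_UIW.lean). `W_n = (0 -1; 2p^n 0)`, `u (W_n (u v)) = p W_n v`; `W_n κ = (δ -γ/(2p^n); -2p^n β α) W_n`, `HTy` of the same
determinant. `UIpH`: `2 χ ≈ 0`. -/
def ZUIW : Prop := UIpH → UIWH

/-- F0-H. Level `2` (models Pool/Agent/Helper76/LV/M_F0.lean, Pool/Agent/Helper8/TLV/M_F0.lean). `Nc a c ψ ≈ 0` for even `c`. `F_D` from MSH for `ψ`. (1) (R): `F_{uD}(α, pβ, γ/p, δ) = F_D(-γ, -δ, α, β)`: by RGU for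
integral `g` of determinant one with `2p ∣ γ`: `u g = g' u`, `F_{uD}(g') = ψ(u g D) = ψ(W g D)`, `2^a ψ(W g D) = F_D(W g)`, `W g = (-γ -δ; 2α 2β)`, `F_D(W g) = 2^a F_D(-γ,-δ,α,β)`. (2), (3) as in `StF0`, with `UIpH` for the
odd number `p²` (`2 ψ ≈ 0` modulo all `p^M`, so `ψ ≈ 0`). -/
def ZF0 : Prop := MSH → RgT → RgU → UIpH → ∀ (p : ℕ) (_ : Fact p.Prime) (κ : ℤ) (a : ℕ)
  (G ψ : ℤ → ℤ → ℤ_[p]), p ≠ 2 → κ ≠ 0 → Homog ψ → (∀ M : ℕ, 3 ≤ M → SymH p M (M - 1) (redP M ψ)) →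
  EqC (act p 0 0 1 ψ - ψ) (κ • G) → (∀ c : ℤ, 2 ∣ c → EqC (Nc a c G) 0) →
  (∀ h : ℤ, EqC (Nb a h ψ) 0) → (∀ c : ℤ, 2 ∣ c → EqC (Nc a c (act p 0 0 1 ψ)) 0) →
  EqC (act 0 (-1) 2 0 ψ) (act p 0 0 1 ψ) → EqC G 0

/-- F1-H. Level `2p`, `a` ODD (models Pool/Agent/Helper29/LV/M_F1.lean, Pool/Agent/Helper73/TLV/M_F1.lean). (0) `Nc a c ψ ≈ 0` for all even `c`. (1) `ψ∘W ≈ ψ`, `W = (0 -1; 2 0)` (`(0 -1; 2p 0) = W u`).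
(2) `F_D(-γ,-δ,α,β) = F_D(α,β,γ,δ)` (RGU; `F_D(W g) = 2^a ψ(W g D) = 2^a ψ(g D)`, `W g = (-γ -δ; 2α 2β)`). (3) `κ EGf_D(α,β,γ,δ) = F_{uD}(α, pβ, γ/p, δ) - F_D(α,β,γ,δ)` (RGU; integral `g` of determinant one with
`2p ∣ γ`). (4) as in `StF1`. -/
def ZF1 : Prop := MSH → RgT → RgU → EG → ∀ (p : ℕ) (_ : Fact p.Prime) (κ : ℤ) (a : ℕ)
  (Φ : ℤ → ℤ → ℕ → ℤ_[p]) (ψ : ℤ → ℤ → ℤ_[p]), p ≠ 2 → κ ≠ 0 → Odd a →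
  (∀ α β γ δ : ℤ, α * δ - β * γ = 1 → (2 : ℤ) ∣ γ → (p : ℤ) ∣ γ →
    EqC (act α β γ δ (cp Φ a)) (pr Φ ((Polynomial.C α * Polynomial.X + Polynomial.C β) ^ a *
      (Polynomial.C γ * Polynomial.X + Polynomial.C δ) ^ a))) →
  Homog ψ → (∀ M : ℕ, 3 ≤ M → SymH p M M (redP M ψ)) →
  EqC (act p 0 0 1 ψ - ψ) (κ • cp Φ a) →
  (∀ h : ℤ, EqC (Nb a h ψ) 0) → (∀ c : ℤ, 2 * (p : ℤ) ∣ c → EqC (Nc a c (act p 0 0 1 ψ)) 0) →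
  EqC (act 0 (-1) (2 * (p : ℤ)) 0 ψ) (act p 0 0 1 ψ) → EqC (cp Φ a) 0

/-- LALL-H (models Pool/Agent/Helper11/LV/M_LAll.lean, Pool/Agent/Helper47/TLV/M_LAll.lean). -/
def ZLAll : Prop := ∀ (p a n : ℕ) (Φ : ℤ → ℤ → ℕ → ℂ), p.Prime → WSNH p a n Φ → EqC (cp Φ a) 0 →
  ∀ i : ℕ, i ≤ 2 * a → EqC (cp Φ i) 0

/-- The properties of the Eichler potentials of a newform of level `2 p^n` with `f | W_2 = f` (no relation at `p`). Compare `IDataH`. -/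
structure IDnH (p a n : ℕ) (I : ℤ → ℤ → ℕ → ℂ) : Prop where
  hom : ∀ i : ℕ, i ≤ 2 * a → Homog (cp I i)
  inf : ∀ i : ℕ, i ≤ 2 * a → I 1 0 i = 0
  eqv : ∀ α β γ δ : ℤ, α * δ - β * γ = 1 → 2 * (p : ℤ) ^ n ∣ γ → ∀ i : ℕ, i ≤ 2 * a →
    EqC (act α β γ δ (cp I i)) (pr I ((Polynomial.C α * Polynomial.X + Polynomial.C β) ^ i *
      (Polynomial.C γ * Polynomial.X + Polynomial.C δ) ^ (2 * a - i)))
  eqq : ∀ α β γ δ : ℤ, α * δ - β * γ = 2 → (2 : ℤ) ∣ α → (2 : ℤ) ∣ δ → 2 * (p : ℤ) ^ n ∣ γ →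
    ∀ i : ℕ, i ≤ 2 * a →
    EqC ((2 ^ a : ℤ) • act α β γ δ (cp I i)) (pr I ((Polynomial.C α * Polynomial.X + Polynomial.C β) ^ i *
      (Polynomial.C γ * Polynomial.X + Polynomial.C δ) ^ (2 * a - i)))
  fr : EqC (act 0 (-1) (2 * (p : ℤ) ^ n) 0 (cp I a)) (-(cp I a))
  hk : ∃ lam : ℕ → ℂ, ∀ (l : ℕ) (m : ℤ), l.Prime → l ≠ p → l ≠ 2 → IsCoprime m (l : ℤ) →
    ∀ i : ℕ, i ≤ 2 * a → ∀ x y : ℤ, (x ≠ 0 ∨ y ≠ 0) →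
    (∑ j ∈ Finset.range l, pr I ((Polynomial.C (l : ℤ) * Polynomial.X -
      Polynomial.C (m * j)) ^ i) (x + m * j * y) (l * y)) +
      ((l : ℤ) ^ (2 * a - i)) • I (l * x) y i = lam l * I x y i

/-- LTR-H. Transport (model Pool/Agent/Helper12/LV/M_LTr.lean, `StLTr`; additional clause `eqq`; `p ≠ 2`: `2 ∣ γ` and `p^n ∣ γ` give `2 p^n ∣ γ`). -/
def ZLTr : Prop := ∀ (p a n : ℕ) (I : ℤ → ℤ → ℕ → ℂ), p.Prime → p ≠ 2 → IDnH p a n I → I 0 1 a = 0 →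
  WSNH p a n (PhN a I)

/-! ### Level `2p²` (the structure `WSymH p a 0`, coordinate `p z`) -/

/-- M2B-H. The trace relations for `EGf` (models Pool/Agent/Helper66/LV/M_M2B.lean, Pool/Agent/Helper69/TLV/M_M2B.lean), with `2i` in the lower ones. -/
def ZM2B : Prop := ∀ (p : ℕ) (_ : Fact p.Prime) (a : ℕ) (Φ : ℤ → ℤ → ℕ → ℤ_[p]),
  WSymH p a 0 Φ → ∀ v1 v2 w1 w2 : ℤ, (v1 ≠ 0 ∨ v2 ≠ 0) → (w1 ≠ 0 ∨ w2 ≠ 0) →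
  ∀ α β γ δ : ℚ_[p],
  (∑ i ∈ Finset.range p, EGf a Φ (v1 + i * v2) v2 (w1 + i * w2) w2
    α (β - i * α) γ (δ - i * γ)) = 0 ∧
  (∑ i ∈ Finset.range p, EGf a Φ v1 (2 * i * v1 + v2) w1 (2 * i * w1 + w2)
    (α - 2 * i * β) β (γ - 2 * i * δ) δ) = 0

/-- The content of AV-H. -/
def AVH : Prop := ∀ (p : ℕ) (_ : Fact p.Prime) (m m' : ℤ → ℤ → ℤ → ℤ → ℚ_[p]), p ≠ 2 →
  (∀ k α β γ δ : ℤ, k ≠ 0 → m (k * α) (k * β) (k * γ) (k * δ) = m α β γ δ) →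
  (∀ k α β γ δ : ℤ, k ≠ 0 → m' (k * α) (k * β) (k * γ) (k * δ) = m' α β γ δ) →
  (∀ x y z t α β γ δ : ℤ, HTy x y z t → HTy α β γ δ → (p : ℤ) ∣ y →
    m (x * α + y * γ) (x * β + y * δ) (z * α + t * γ) (z * β + t * δ) = m α β γ δ) →
  (∀ x y z t α β γ δ : ℤ, HTy x y z t → HTy α β γ δ → (p : ℤ) ∣ z →
    m' (x * α + y * γ) (x * β + y * δ) (z * α + t * γ) (z * β + t * δ) = m' α β γ δ) →
  (∀ α β γ δ : ℤ, HTy α β γ δ →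
    (p : ℚ_[p]) * m' α β γ δ = ∑ i ∈ Finset.range p, m (α + i * γ) (β + i * δ) γ δ) →
  (∀ α β γ δ : ℤ, HTy α β γ δ →
    (p : ℚ_[p]) * m α β γ δ = ∑ i ∈ Finset.range p, m' α β (2 * i * α + γ) (2 * i * β + δ)) →
  ∀ α β γ δ : ℤ, HTy α β γ δ → m α β γ δ = m' α β γ δ

/-- AV-H (model Pool/Agent/Helper1/LV/M_AV.lean). Let `s(g) = m(W g) + ∑_{i<p} m(n(i) g)`, `W = (0 -1; 2 0)`, for `HTy` matrices `g` (and their multiples). (1) `s(n(1) g) = s(g)`: `W n(1) = n'(-2) W`, and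
`m(n(p) g) = m(g)`. (2) `s(W g) = s(g)`: `W W = -2`, `m(-2 g) = m(g)`; `m(n(0)Wg) = m(Wg)`; for `0 < i < p` take `0 < i' < p` with `p ∣ 2 i i' + 1` (a permutation): `n(i) W = K n(i')` with
`K = (2i, -(2ii'+1); 2, -2i')`, `HTy` of determinant two. (3) `s` is invariant under all `HTy` matrices (generated up to scalars by `n(±1)` and `W`; `n'(-2) = W n(1) W⁻¹`, `Γ₀(2)` is generated by `n(±1)`, `n'(±2)`, `-1`).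
(4) `p m'(g) = s(g) - m(W g)`. `p² m(g) = ∑_i p m'(n'(2i) g) = p s(g) - ∑_i m(W n'(2i) g)`, `W n'(2i) = n(-i) W`, `∑_i m(n(-i) W g) = ∑_i m(n(i) W g) = s(W g) - m(WWg) = s(g) - m(g)`. So `(p² - 1) m(g) = (p - 1) s(g)` and
`m' = m`. -/
def ZAV : Prop := AVH

/-- F2-H. Level `2p²` (models Pool/Agent/Helper15/LV/M_F2.lean, Pool/Agent/Helper45/TLV/M_F2.lean). `G = cp Φ a`, `θ = ψ∘u ≈ ψ + κ G`. MCH (`ν = 1`) for `θ`: `F'_D` with `det(g)^a θ(gD) = F'_D(g)`, `HTy` `g` with `p ∣ γ`;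
for `ψ' = ψ∘W`, `W = (0 -1; 2 0)`, `h = W g W⁻¹ = (δ, -γ/2; -2β, α)` (`HTy` of the same determinant if `g` is; `ψ'` satisfies the hypotheses of MCH: `W n(b) = n'(-2b) W`, `W n'(2c) = n(-c) W`): `F_D` with
`det(h)^a ψ(hD) = F_D(h)` for `HTy` `h` with `p ∣ β`. Equivariance (RGU): `F_D(xg) = det(g)^a F_{gD}(x)` for `p ∣ β`, the same for `F'`, `p ∣ γ`. `κ EGf_D = F'_D - F_D` everywhere (RGU on determinant one, `2 ∣ γ`, `p ∣ β`, `p ∣ γ`;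
EG). For `HTy` `g` put `m(g) = det(g)^a F_{gD}(g⁻¹) = det(g)^(-a) F_{gD}(δ,-β,-γ,α)`, `m'(g)` the same with `F'` (extended to nonzero multiples by `m(k g) = m(g)`, e.g. divide by the content, and `0` otherwise). Invariance: by
equivariance. `p m'(g) - ∑_i m(n(i)g) = κ det(g)^a ∑_i EGf_{n(i)D'}(x n(i)⁻¹) = 0`, `D' = gD`, `x = g⁻¹` (M2B-H), the second relation in the same way with `n'(2i)`. AV-H: `m(1) = m'(1)`: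
`κ G(D) = θ(D) - ψ(D) = F'_D(1) - F_D(1) = 0`. -/
def ZF2 : Prop := MCH → RgT → RgU → EG → ZM2B → AVH → SHW2 → ∀ (p : ℕ) (_ : Fact p.Prime) (κ : ℤ)
  (a : ℕ) (Φ : ℤ → ℤ → ℕ → ℤ_[p]) (ψ : ℤ → ℤ → ℤ_[p]), p ≠ 2 → κ ≠ 0 → WSymH p a 0 Φ →
  Homog ψ → (∀ M : ℕ, 3 ≤ M → SymH p M (M - 1) (redP M ψ)) →
  EqC (act p 0 0 1 ψ - ψ) (κ • cp Φ a) →
  (∀ h : ℤ, EqC (Nb a h (ψ + κ • cp Φ a)) 0) → (∀ c : ℤ, 2 ∣ c → EqC (Nc a c ψ) 0) →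
  EqC (cp Φ a) 0

end Pool.Agent.Helper28.TH
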