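import Pool.Agent.Helper28.TH.Defs
import Pool.Agent.Helper93.TLH.Defs
import Pool.Agent.Helper28.WK.StC

/-!
# Project TH, all weights: statements (levels `2 p^n`, `n = ν + 2`, `f | W_2 = f`, coordinate `x = p z`)

The statements of `Helper28/WK/{StB,StC}.lean` (project WK) for the group of the matrices of determinant one with even lower left entry and of the matrices of determinant two with three even entries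
(`HTy` of `Helper93/TLH/Defs.lean`, `SymH` in place of `SymP`). The translations `(1 b; 0 1)` are as in WK, the lower ones are `(1 0; 2 c 1)`; the Hecke operator of level `(r, s)` is `Tl l (p^r)`. In weight
`2a+2` a matrix of determinant two gives a factor `2^a`. The proofs of the modules of WK (`Pool/Agent/Helper*/WK/M_*.lean`) can be adapted: `p^ν` in a lower left entry becomes `2 p^ν`; the factor `4` of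
Theorem A is replaced by a factor `κ`.
-/

set_option autoImplicit false

open Pool.Agent.Helper14.CV

namespace Pool.Agent.Helper28.TH

open Pool.Agent.Helper28.WK
open Pool.Agent.Helper4.TL (OkE)
open Pool.Agent.Helper93.TLH

/-- Theorem A for the prime `p`, with factor `κ`, for the symbols `SymH`. -/
def TAH (p : ℕ) (κ : ℤ) : Prop := ∀ (m M : ℕ) (g : ℤ → ℤ → ZMod (p ^ M)), 5 ≤ m → SymH p 0 m g →
  EqC (act 0 (-1) (2 * (p : ℤ) ^ m) 0 g) (-g) → EqC (act (-1) 0 0 1 g) g →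
  (∀ ls : List ℕ, OkE p ls → evw 1 ls g = 0) →
  ∃ ψ : ℤ → ℤ → ZMod (p ^ M), SymH p 0 (m - 1) ψ ∧ EqC (act p 0 0 1 ψ - ψ) (κ • g)

/-- Symbols of weight `2a+2` and level `2 p^(ν+2)` (coordinate `x = p z`) for the extended group, killed by the traces at `p` in both directions (`tt`, `ss`), with central component anti-invariant
under the Fricke involution (`fr`) and invariant under `*` (`st`), and killed by all Hecke words applied to the central path (`hk`). Compare `WSymP`. -/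
structure WSymH {R : Type} [AddCommGroup R] (p a ν : ℕ) (Φ : ℤ → ℤ → ℕ → R) : Prop where
  hom : ∀ i : ℕ, i ≤ 2 * a → Homog (cp Φ i)
  eqv : ∀ α β γ δ : ℤ, α * δ - β * γ = 1 → (p : ℤ) ∣ β → (2 : ℤ) ∣ γ → (p : ℤ) ^ (ν + 1) ∣ γ →
    ∀ i : ℕ, i ≤ 2 * a →
    EqC (act α β γ δ (cp Φ i)) (pr Φ ((Polynomial.C α * Polynomial.X + Polynomial.C β) ^ i *
      (Polynomial.C γ * Polynomial.X + Polynomial.C δ) ^ (2 * a - i)))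
  eqq : ∀ α β γ δ : ℤ, α * δ - β * γ = 2 → (2 : ℤ) ∣ α → (2 : ℤ) ∣ γ → (2 : ℤ) ∣ δ → (p : ℤ) ∣ β →
    (p : ℤ) ^ (ν + 1) ∣ γ → ∀ i : ℕ, i ≤ 2 * a →
    EqC ((2 ^ a : ℤ) • act α β γ δ (cp Φ i)) (pr Φ ((Polynomial.C α * Polynomial.X + Polynomial.C β) ^ i *
      (Polynomial.C γ * Polynomial.X + Polynomial.C δ) ^ (2 * a - i)))
  tt : ∀ j : ℕ, j ≤ 2 * a → EqC (fun x y => ∑ i ∈ Finset.range p,
    pr Φ ((Polynomial.X - Polynomial.C (i : ℤ)) ^ j) (x + i * y) y) 0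
  ss : ∀ j : ℕ, j ≤ 2 * a → EqC (fun x y => ∑ i ∈ Finset.range p,
    pr Φ (Polynomial.X ^ j * (1 - Polynomial.C (2 * (p : ℤ) ^ ν * i) * Polynomial.X) ^ (2 * a - j))
      x (2 * (p : ℤ) ^ ν * i * x + y)) 0
  fr : EqC (act 0 (-1) (2 * (p : ℤ) ^ ν) 0 (cp Φ a)) (-(cp Φ a))
  st : EqC (act (-1) 0 0 1 (cp Φ a)) (cp Φ a)
  hk : ∀ M : ℕ, 1 ≤ M → ∀ ls : List ℕ, OkE p ls →
    WTw a ((p : ℤ) ^ M) ls Φ 1 0 a = WTw a ((p : ℤ) ^ M) ls Φ 0 1 a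

/-- The content of UIP-H. -/
def UIpH : Prop := ∀ (p : ℕ), 3 ≤ p → ¬ 2 ∣ p → ∀ (R : Type) (_ : AddCommGroup R) (r s : ℕ)
  (χ : ℤ → ℤ → R), SymH p r s χ → EqC (act p 0 0 1 χ) χ → EqC ((2 : ℤ) • χ) 0

/-- UIP-H. (`p` any odd number `≥ 3`; models Pool/Agent/Helper79/TL/M_UIp.lean, Pool/Agent/Helper82/WK/M_UIp.lean.) Let `H` be the set of all `HTy a b c d` with `χ∘(a b; c d) ≈ χ`; it is closed under products and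
inverses up to scalars (`Homog`). As in `StUIp`: `n(p^r)` is in `H`, from `n(p b)` in `H` follows `n(b)` in `H`, so `n(1) = (1 1; 0 1)` is in `H`; in the same way `n'(2) = (1 0; 2 1)` (from `(1 0; 2 p^s 1)`). A matrix of
determinant two in the group of level `(r, s)`: `2 a d - b c = 1` with `p^r ∣ b`, `p^s ∣ c`, `b`, `c` odd, gives `(2a b; 2c 2d)` in `H`; multiply by `n(i)`, `n'(2j)` and divide by scalars (Euclid; or: every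
`HTy` matrix of determinant two is `W` times a matrix of `Γ₀(2)`, `W = (0 -1; 2 0)`, and `Γ₀(2)` is generated by `n(1)`, `n'(2)`, `-1`): so `W` is in `H`. `χ∘γ = χ + c_γ` away from the origin for `γ` in `H`, and
`c_(γγ') = c_γ + c_γ'`. `c_(n(1)) = 0` (value at `(1, 0)`), `c_W + c_W = c_(-2) = 0`, `n'(2)` is `W n(-1) W⁻¹` up to a scalar, so `c_(n'(2)) = 0`. Every vector is a multiple of `γ (1, 0)` for some `HTy` matrix `γ`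
in the group generated by these (`(x, y)` coprime: `y` even: `γ` in `Γ₀(2)`; `y` odd: `W γ'`), so `χ(v) - χ(1, 0)` is `0` or `c_W`, and `2 c_W = 0`. -/
def SHUIp : Prop := UIpH

/-- LA-H. Theorem A at the level `(M, M+ν)` (model Pool/Agent/Helper10/WK/M_La.lean, `StLa`): `g' = act (p^M) 0 0 1 g` is of level `(0, 2M+ν)` (`(p^M 0; 0 1)(a b; c d) = (a p^M b; c/p^M d)(p^M 0; 0 1)`, the
parity conditions do not change, `p` odd), `Tl l 1 (act (p^M) 0 0 1 H) = act (p^M) 0 0 1 (Tl l (p^M) H)`. -/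
def SHLa : Prop := ∀ (p : ℕ) (_ : Fact p.Prime) (κ : ℤ), p ≠ 2 → TAH p κ →
  ∀ (ν M : ℕ) (g : ℤ → ℤ → ZMod (p ^ M)), 3 ≤ M → SymH p M (M + ν) g →
  EqC (act 0 (-1) (2 * (p : ℤ) ^ ν) 0 g) (-g) → EqC (act (-1) 0 0 1 g) g →
  (∀ ls : List ℕ, OkE p ls → evw ((p : ℤ) ^ M) ls g = 0) →
  ∃ ψ : ℤ → ℤ → ZMod (p ^ M), SymH p M (M + ν - 1) ψ ∧ EqC (act p 0 0 1 ψ - ψ) (κ • g)

/-- LB2-H. The limit (model Pool/Agent/Helper16/WK/M_Lb2.lean; with signs Pool/Agent/Helper81/TLV/M_LLb.lean), with `2 ψ_M` in place of `ψ_M` (`UIpH`). -/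
def SHLb2 : Prop := SHLa → UIpH → ∀ (p : ℕ) (_ : Fact p.Prime) (κ : ℤ), p ≠ 2 → TAH p κ →
  ∀ (ν : ℕ) (G : ℤ → ℤ → ℤ_[p]),
  Homog G → (∀ M : ℕ, 3 ≤ M → SymH p M (M + ν) (redP M G)) →
  EqC (act 0 (-1) (2 * (p : ℤ) ^ ν) 0 G) (-G) → EqC (act (-1) 0 0 1 G) G →
  (∀ M : ℕ, 3 ≤ M → ∀ ls : List ℕ, OkE p ls → evw ((p : ℤ) ^ M) ls (redP M G) = 0) →
  ∃ ψ : ℤ → ℤ → ℤ_[p], Homog ψ ∧ (∀ M : ℕ, 3 ≤ M → SymH p M (M + ν - 1) (redP M ψ)) ∧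
    EqC (act p 0 0 1 ψ - ψ) ((2 * κ : ℤ) • G)

/-- POL-H. Polynomiality (model Pool/Agent/Helper63/WK/M_Pol.lean, `StPol`, or Pool/Agent/Helper21/LV/M_LPol2.lean), with `M ≥ 3`, `2 p^ν ∣ c` and any factor `κ`. -/
def SHPol : Prop := ∀ (p : ℕ) (_ : Fact p.Prime) (κ : ℤ) (a ν : ℕ) (G ψ : ℤ → ℤ → ℤ_[p]), p ≠ 2 →
  Homog G → Homog ψ → (∀ M : ℕ, 3 ≤ M → SymH p M (M + ν - 1) (redP M ψ)) →
  EqC (act p 0 0 1 ψ - ψ) (κ • G) → (∀ h : ℤ, (p : ℤ) ∣ h → EqC (Nb a h G) 0) →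
  (∀ c : ℤ, 2 * (p : ℤ) ^ (ν + 1) ∣ c → EqC (Nc a c G) 0) →
  (∀ h : ℤ, EqC (Nb a h (ψ + κ • G)) 0) ∧ (∀ c : ℤ, 2 * (p : ℤ) ^ ν ∣ c → EqC (Nc a c ψ) 0)

/-- GP-H (models Pool/Agent/Helper86/WK/M_Gp.lean, Pool/Agent/Helper61/TLW/M_Gp.lean): `StGp` with `2 p^ν` in place of `p^ν`. -/
def SHGp : Prop := StPl1 → ∀ (p : ℕ) (_ : Fact p.Prime) (a ν : ℕ) (P : ℤ → ℤ_[p]) (y : ℤ), 1 ≤ ν →
  (Plf a P → ∃ (f : Polynomial ℚ_[p]) (K : ℝ), f.natDegree ≤ a ∧ ∀ (L : ℕ) (x b : ℤ), 1 ≤ L →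
    (p : ℤ) ^ L ∣ b * (1 - 2 * (p : ℤ) ^ ν * x * y) - x →
    ‖(1 - 2 * (p : ℚ_[p]) ^ ν * x * y) ^ a * ((P b : ℤ_[p]) : ℚ_[p]) - f.eval (x : ℚ_[p])‖ ≤
      K * ((p : ℝ) ^ L)⁻¹) ∧
  (QPf a P → ∃ (r : ℤ → Polynomial ℚ_[p]) (K : ℝ), (∀ x, (r x).natDegree ≤ a) ∧
    (∀ x : ℤ, r (x + p) = r x) ∧ (∑ i ∈ Finset.range p, r (i : ℤ)) = 0 ∧
    ∀ (L : ℕ) (x b : ℤ), 1 ≤ L → (p : ℤ) ^ L ∣ b * (1 - 2 * (p : ℤ) ^ ν * x * y) - x →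
    ‖(1 - 2 * (p : ℚ_[p]) ^ ν * x * y) ^ a * ((P b : ℤ_[p]) : ℚ_[p]) - (r x).eval (x : ℚ_[p])‖ ≤
      K * ((p : ℝ) ^ L)⁻¹)

/-- The content of GR-H: `Gr` with `2 p^ν` in place of `p^ν` and a factor `κ ≠ 0` in place of `4`. -/
def GrH : Prop := ∀ (p : ℕ) (_ : Fact p.Prime) (κ : ℤ) (a ν : ℕ)
  (Fc Fb Hc Hb : ℤ → ℤ → ℤ_[p]), κ ≠ 0 → 1 ≤ ν → (∀ x, Plf a (Fc x)) →
  (∀ y, Plf a (fun b => Fb y b + (κ : ℤ_[p]) * Hb y b)) → (∀ x, QPf a (Hc x)) → (∀ y, QPf a (Hb y)) →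
  (∀ (L : ℕ) (x y c b : ℤ), 3 ≤ L → (p : ℤ) ^ L ∣ c * (1 - 2 * (p : ℤ) ^ ν * x * y) - y →
    (p : ℤ) ^ L ∣ b * (1 - 2 * (p : ℤ) ^ ν * x * y) - x →
    (p : ℤ_[p]) ^ L ∣ Fc x c - Fb y b ∧ (p : ℤ_[p]) ^ L ∣ Hc x c - Hb y b) → Hc 0 0 = 0

/-- GR-H (models Pool/Agent/Helper2/WK/M_Gr.lean, Pool/Agent/Helper70/TLW/M_Gr.lean). -/
def SHGr : Prop := SHGp → StPl1 → GrH

/-- CC-H. Two matrices with the same coordinates (models Pool/Agent/Helper99/WK/M_CC.lean, Pool/Agent/Helper13/TLW/M_CC.lean). `A = (1 b; 0 1) (1 0; Y 1)`, `Y = 2 p^ν y`, `B = (1 0; C 1) (1 x; 0 1)`,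
`C = 2 p^ν c`; `K = A B⁻¹` has determinant one, even lower left entry divisible by `p^(L+ν)`, upper right entry divisible by `p^L`. -/
def SHCC : Prop := ∀ (p ν L : ℕ) (R : Type) (_ : AddCommGroup R) (X : ℤ → ℤ → R),
  SymH p L (L + ν) X → ∀ x y c b v1 v2 w1 w2 : ℤ, (v1 ≠ 0 ∨ v2 ≠ 0) → (w1 ≠ 0 ∨ w2 ≠ 0) →
  (p : ℤ) ^ L ∣ c * (1 - 2 * (p : ℤ) ^ ν * x * y) - y →
  (p : ℤ) ^ L ∣ b * (1 - 2 * (p : ℤ) ^ ν * x * y) - x →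
  X (w1 + x * w2) (2 * (p : ℤ) ^ ν * c * (w1 + x * w2) + w2) -
    X (v1 + x * v2) (2 * (p : ℤ) ^ ν * c * (v1 + x * v2) + v2) =
  X (w1 + b * (2 * (p : ℤ) ^ ν * y * w1 + w2)) (2 * (p : ℤ) ^ ν * y * w1 + w2) -
    X (v1 + b * (2 * (p : ℤ) ^ ν * y * v1 + v2)) (2 * (p : ℤ) ^ ν * y * v1 + v2)

/-- G5-H. The contradiction (models Pool/Agent/Helper15/WK/M_G5.lean, Pool/Agent/Helper33/TLW/M_G5.lean). -/
def SHG5 : Prop := GrH → SHCC → ∀ (p : ℕ) (_ : Fact p.Prime) (κ : ℤ) (a ν : ℕ) (G ψ : ℤ → ℤ → ℤ_[p]),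
  κ ≠ 0 → 1 ≤ ν →
  (∀ M : ℕ, 3 ≤ M → SymH p M (M + ν) (redP M G)) →
  (∀ M : ℕ, 3 ≤ M → SymH p M (M + ν - 1) (redP M ψ)) →
  (∀ h : ℤ, EqC (Nb a h (ψ + κ • G)) 0) → (∀ c : ℤ, 2 * (p : ℤ) ^ ν ∣ c → EqC (Nc a c ψ) 0) →
  (∀ v1 v2 w1 w2 : ℤ, (v1 ≠ 0 ∨ v2 ≠ 0) → (w1 ≠ 0 ∨ w2 ≠ 0) →
    QPf a (fun b => G (w1 + b * w2) w2 - G (v1 + b * v2) v2) ∧
    QPf a (fun c => G w1 (2 * (p : ℤ) ^ ν * c * w1 + w2) - G v1 (2 * (p : ℤ) ^ ν * c * v1 + v2))) →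
  EqC G 0

/-- W1-H (models Pool/Agent/Helper36/WK/M_W1.lean, Pool/Agent/Helper2/TLV/M_M2A.lean). For a matrix of determinant two, `i = a`: `(γX+δ)^a = 2^a (γ'X+δ')^a` and modulo `p^M` (`M ≥ 1`, `p^M ∣ β`, `p^M ∣ γ`)
`(αX+β)^a (γ'X+δ')^a ≡ (αδ')^a X^a ≡ X^a` (`αδ' = 1 + βγ'`), so `2^a (act κ Φ_a - Φ_a) ≈ 0` modulo `p^M`, and `2` is a unit modulo `p^M` (`p ≠ 2`). -/
def SHW1 : Prop := ∀ (p : ℕ) (_ : Fact p.Prime) (a ν : ℕ) (Φ : ℤ → ℤ → ℕ → ℤ_[p]), p ≠ 2 →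
  WSymH p a ν Φ → ∀ M : ℕ, 1 ≤ M → SymH p M (M + ν) (redP M (cp Φ a))

/-- W2-H (models Pool/Agent/Helper28/WK/M_W2.lean, Pool/Agent/Helper28/TLW/M_W2.lean). -/
def SHW2 : Prop := ∀ (p : ℕ) (_ : Fact p.Prime) (a ν : ℕ) (Φ : ℤ → ℤ → ℕ → ℤ_[p]),
  WSymH p a ν Φ → (∀ h : ℤ, (p : ℤ) ∣ h → EqC (Nb a h (cp Φ a)) 0) ∧
    (∀ c : ℤ, 2 * (p : ℤ) ^ (ν + 1) ∣ c → EqC (Nc a c (cp Φ a)) 0)

/-- W3-H (models Pool/Agent/Helper1/WK/M_W3.lean, Pool/Agent/Helper45/TLW/M_W3.lean). -/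
def SHW3 : Prop := ∀ (p : ℕ) (_ : Fact p.Prime) (a ν : ℕ) (Φ : ℤ → ℤ → ℕ → ℤ_[p]),
  WSymH p a ν Φ → ∀ v1 v2 w1 w2 : ℤ, (v1 ≠ 0 ∨ v2 ≠ 0) → (w1 ≠ 0 ∨ w2 ≠ 0) →
    QPf a (fun b => cp Φ a (w1 + b * w2) w2 - cp Φ a (v1 + b * v2) v2) ∧
    QPf a (fun c => cp Φ a w1 (2 * (p : ℤ) ^ ν * c * w1 + w2) -
      cp Φ a v1 (2 * (p : ℤ) ^ ν * c * v1 + v2))

/-- W4-H (models Pool/Agent/Helper97/WK/M_W4.lean, Pool/Agent/Helper6/TLW/M_W4.lean). -/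
def SHW4 : Prop := ∀ (p : ℕ) (_ : Fact p.Prime) (a ν : ℕ) (Φ : ℤ → ℤ → ℕ → ℤ_[p]),
  WSymH p a ν Φ → ∀ M : ℕ, 1 ≤ M → ∀ ls : List ℕ, OkE p ls →
    evw ((p : ℤ) ^ M) ls (redP M (cp Φ a)) = 0

/-- MAP-H. Additive maps (models Pool/Agent/Helper47/WK/M_Map.lean, Pool/Agent/Helper99/TLW/M_Map.lean); the clause `eqq` as `eqv`, with the factor `2^a`. -/
def SHMap : Prop := ∀ (p a ν : ℕ), p ≠ 0 → ∀ (R S : Type) (_ : AddCommGroup R) (_ : AddCommGroup S)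
  (lam : R →+ S) (Φ : ℤ → ℤ → ℕ → R),
  (WSymH p a ν Φ → WSymH p a ν (fun x y i => lam (Φ x y i))) ∧
  (Function.Injective lam → WSymH p a ν (fun x y i => lam (Φ x y i)) → WSymH p a ν Φ) ∧
  ∀ Φ' : ℤ → ℤ → ℕ → R, (∀ i : ℕ, i ≤ 2 * a → EqC (cp Φ' i) (cp Φ i)) → WSymH p a ν Φ →
    WSymH p a ν Φ'

/-- DEN-H. Bounded denominators (models Pool/Agent/Helper66/WK/M_Den.lean, Pool/Agent/Helper85/TLW/M_Den.lean); matrices of determinant one which agree modulo `2 p^(ν+1)` (only `eqv` is used). -/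
def SHDen : Prop := StFar → SHMap → ∀ (p a ν : ℕ) (Φ : ℤ → ℤ → ℕ → ℚ), p.Prime → WSymH p a ν Φ →
  ∃ (N : ℤ) (Ψ : ℤ → ℤ → ℕ → ℤ), N ≠ 0 ∧ WSymH p a ν Ψ ∧
    ∀ i : ℕ, i ≤ 2 * a → EqC (fun x y => ((Ψ x y i : ℤ) : ℚ)) (N • cp Φ i)

/-- QC-H. From `ℤ_p` to `ℂ` (models Pool/Agent/Helper67/LV/M_LQC.lean, Pool/Agent/Helper55/TLV/M_LQC.lean). -/
def SHQC : Prop := StFar → SHMap → SHDen → ∀ (p : ℕ) (_ : Fact p.Prime) (a ν : ℕ),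
  (∀ Φ : ℤ → ℤ → ℕ → ℤ_[p], WSymH p a ν Φ → EqC (cp Φ a) 0) →
  ∀ Φ : ℤ → ℤ → ℕ → ℂ, WSymH p a ν Φ → EqC (cp Φ a) 0

/-- ALL-H. All components (models Pool/Agent/Helper32/WK/M_All.lean, Pool/Agent/Helper9/TLW/M_All.lean), with `b` in `p ℤ`, `c` in `2 p^(ν+1) ℤ`. -/
def SHAll : Prop := ∀ (p a ν : ℕ) (Φ : ℤ → ℤ → ℕ → ℂ), p.Prime → WSymH p a ν Φ → EqC (cp Φ a) 0 →
  ∀ i : ℕ, i ≤ 2 * a → EqC (cp Φ i) 0

/-! ### Interface with the analytic part -/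

/-- The properties of the Eichler potentials of a newform of level `2 p^(ν+2)` with `f | W_2 = f` and root number `+1`. -/
structure IDataH (p a ν : ℕ) (I : ℤ → ℤ → ℕ → ℂ) : Prop where
  hom : ∀ i : ℕ, i ≤ 2 * a → Homog (cp I i)
  inf : ∀ i : ℕ, i ≤ 2 * a → I 1 0 i = 0
  eqv : ∀ α β γ δ : ℤ, α * δ - β * γ = 1 → 2 * (p : ℤ) ^ (ν + 2) ∣ γ → ∀ i : ℕ, i ≤ 2 * a →
    EqC (act α β γ δ (cp I i)) (pr I ((Polynomial.C α * Polynomial.X + Polynomial.C β) ^ i *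
      (Polynomial.C γ * Polynomial.X + Polynomial.C δ) ^ (2 * a - i)))
  eqq : ∀ α β γ δ : ℤ, α * δ - β * γ = 2 → (2 : ℤ) ∣ α → (2 : ℤ) ∣ δ → 2 * (p : ℤ) ^ (ν + 2) ∣ γ →
    ∀ i : ℕ, i ≤ 2 * a →
    EqC ((2 ^ a : ℤ) • act α β γ δ (cp I i)) (pr I ((Polynomial.C α * Polynomial.X + Polynomial.C β) ^ i *
      (Polynomial.C γ * Polynomial.X + Polynomial.C δ) ^ (2 * a - i)))
  tt : ∀ j : ℕ, j ≤ 2 * a → EqC (fun x y => ∑ i ∈ Finset.range p,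
    pr I ((Polynomial.C (p : ℤ) * Polynomial.X - Polynomial.C (i : ℤ)) ^ j)
      (p * x + i * y) (p * y)) 0
  ss : ∀ j : ℕ, j ≤ 2 * a → EqC (fun x y => ∑ i ∈ Finset.range p,
    pr I (Polynomial.X ^ j *
      (1 - Polynomial.C (2 * (p : ℤ) ^ (ν + 1) * i) * Polynomial.X) ^ (2 * a - j))
      x (2 * (p : ℤ) ^ (ν + 1) * i * x + y)) 0
  fr : EqC (act 0 (-1) (2 * (p : ℤ) ^ (ν + 2)) 0 (cp I a)) (-(cp I a))
  hk : ∃ lam : ℕ → ℂ, ∀ (l : ℕ) (m : ℤ), l.Prime → l ≠ p → l ≠ 2 → IsCoprime m (l : ℤ) →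
    ∀ i : ℕ, i ≤ 2 * a → ∀ x y : ℤ, (x ≠ 0 ∨ y ≠ 0) →
    (∑ j ∈ Finset.range l, pr I ((Polynomial.C (l : ℤ) * Polynomial.X -
      Polynomial.C (m * j)) ^ i) (x + m * j * y) (l * y)) +
      ((l : ℤ) ^ (2 * a - i)) • I (l * x) y i = lam l * I x y i

/-- TR-H. Transport (model Pool/Agent/Helper12/WK/M_Tr.lean, `StTr`; the level is `2 p^(ν+2)` and there is the additional clause `eqq`: `(α β; γ δ)` of determinant two becomes `(α β/p; pγ δ)` at `(x, py)` and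
`(α -β/p; -pγ δ)` at `(-x, py)`). -/
def SHTr : Prop := ∀ (p a ν : ℕ) (I : ℤ → ℤ → ℕ → ℂ), p.Prime → p ≠ 2 → IDataH p a ν I → I 0 1 a = 0 →
  WSymH p a ν (PhiOf p a I)

end Pool.Agent.Helper28.TH
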